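import Mathlib

/-!
# Minimal submanifolds of spheres and their Laplace eigenvalues

Elementary definitions for subsets `M` of a finite-dimensional Euclidean space `V`:
embedded submanifolds, tangent vectors, the mean curvature vector, minimality in the unit
sphere and eigenvalues of the Laplace-Beltrami operator of the induced metric.
-/

set_option autoImplicit false

open scoped ContDiff Topology
open Module

namespace Pool.Agent.Helper89.TangYan

variable {V : Type*} [NormedAddCommGroup V] [InnerProductSpace ℝ V]

/-- `M` is a smooth embedded submanifold (without boundary) of dimension `d` of the Euclidean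
space `V`: for `c = dim V - d`, near each of its points `M` is the zero set of a smooth map
`F : V → ℝ^c` whose differential is surjective at the points of `M`. -/
def IsEmbeddedSubmanifold (d : ℕ) (M : Set V) : Prop :=
  ∃ c : ℕ, d + c = finrank ℝ V ∧
    ∀ x ∈ M, ∃ (O : Set V) (F : V → Fin c → ℝ), IsOpen O ∧ x ∈ O ∧ ContDiff ℝ ∞ F ∧
      (∀ y ∈ O, y ∈ M ↔ F y = 0) ∧ ∀ y ∈ O, y ∈ M → Function.Surjective (fderiv ℝ F y)

/-- `γ` is a smooth curve with `γ 0 = x` that lies in `M` for small times. -/
def IsCurveAt (M : Set V) (x : V) (γ : ℝ → V) : Prop :=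
  ContDiff ℝ ∞ γ ∧ γ 0 = x ∧ ∀ᶠ t in 𝓝 (0 : ℝ), γ t ∈ M

/-- `v` is a tangent vector of `M` at `x`: the velocity at time `0` of a smooth curve in `M`
issuing from `x`. -/
def IsTangentAt (M : Set V) (x v : V) : Prop :=
  ∃ γ : ℝ → V, IsCurveAt M x γ ∧ deriv γ 0 = v

/-- `γ 0, …, γ (d-1)` are smooth curves in `M` issuing from `x` whose velocities at `x` are
orthonormal and whose accelerations at `x` are orthogonal to the tangent space `T_x M`
(for instance the geodesics of `M` with initial velocities an orthonormal basis of `T_x M`,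
when `M` has dimension `d`). -/
structure IsNormalFrame (d : ℕ) (M : Set V) (x : V) (γ : Fin d → ℝ → V) : Prop where
  curve : ∀ i, IsCurveAt M x (γ i)
  orthonormal : Orthonormal ℝ fun i => deriv (γ i) 0
  normal : ∀ i v, IsTangentAt M x v → inner ℝ (deriv (deriv (γ i)) 0) v = 0

/-- The mean curvature vector (the trace of the second fundamental form) of the
`d`-dimensional submanifold `M` of `V` at `x` is `H`: for a normal frame `γ` at `x`,
`H = ∑ i, γ_i''(0)`. -/
def HasMeanCurvatureVector (d : ℕ) (M : Set V) (x H : V) : Prop :=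
  (∃ γ : Fin d → ℝ → V, IsNormalFrame d M x γ) ∧
    ∀ γ : Fin d → ℝ → V, IsNormalFrame d M x γ → ∑ i, deriv (deriv (γ i)) 0 = H

/-- The `d`-dimensional submanifold `M` of `V` lies in the unit sphere and is minimal there:
at every point `x` of `M` the mean curvature vector of `M` in `V` is a multiple of the position
vector `x`, i.e. its component tangent to the sphere (the mean curvature vector of `M` in
the sphere) vanishes. -/
def IsMinimalInUnitSphere (d : ℕ) (M : Set V) : Prop :=
  M ⊆ Metric.sphere 0 1 ∧ ∀ x ∈ M, ∃ c : ℝ, HasMeanCurvatureVector d M x (c • x)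

/-- The Laplace-Beltrami operator `Δ f = - div grad f` of the `d`-dimensional submanifold `M`
(with the induced metric), applied to `f` and evaluated at `x`, is `a`: for a normal frame
`γ` at `x`, `a = - ∑ i, (f ∘ γ_i)''(0)`, minus the trace of the Hessian of `f` on `M`. -/
def HasLaplacianAt (d : ℕ) (M : Set V) (f : V → ℝ) (x : V) (a : ℝ) : Prop :=
  (∃ γ : Fin d → ℝ → V, IsNormalFrame d M x γ) ∧
    ∀ γ : Fin d → ℝ → V, IsNormalFrame d M x γ →
      -∑ i, deriv (deriv fun t => f (γ i t)) 0 = a

/-- `μ` is an eigenvalue of the Laplace-Beltrami operator of the closed `d`-dimensional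
submanifold `M`: there is a smooth function `f` that is not identically zero on `M` with
`Δ f = μ f` on `M`. -/
def IsLaplaceEigenvalue (d : ℕ) (M : Set V) (μ : ℝ) : Prop :=
  ∃ f : V → ℝ, ContDiff ℝ ∞ f ∧ (∃ x ∈ M, f x ≠ 0) ∧ ∀ x ∈ M, HasLaplacianAt d M f x (μ * f x)

/-- `μ` is the first eigenvalue `λ₁(M)`: the least positive eigenvalue of the Laplace-Beltrami
operator of `M`. -/
def IsFirstEigenvalue (d : ℕ) (M : Set V) (μ : ℝ) : Prop :=
  IsLeast {ν : ℝ | 0 < ν ∧ IsLaplaceEigenvalue d M ν} μ

end Pool.Agent.Helper89.TangYan
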