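import Pool.Agent.Helper89.TangYan.Defs

set_option autoImplicit false

open scoped ContDiff ComplexConjugate Topology
open Module Filter

namespace Pool.Agent.Helper89.TangYan

section

variable {V : Type*} [NormedAddCommGroup V] [InnerProductSpace ℝ V]

/-- orthogonal decomposition `V = ℂ ⊕ ℂ ⊕ ℂ ⊕ W`. -/
structure Dec (V : Type*) [NormedAddCommGroup V] [InnerProductSpace ℝ V] where
  Z1 : V →L[ℝ] ℂ
  Z2 : V →L[ℝ] ℂ
  Z3 : V →L[ℝ] ℂ
  J1 : ℂ →L[ℝ] V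
  J2 : ℂ →L[ℝ] V
  J3 : ℂ →L[ℝ] V
  P : V →L[ℝ] V
  inner_eq : ∀ x y : V, inner ℝ x y = (conj (Z1 x) * Z1 y).re + (conj (Z2 x) * Z2 y).re
    + (conj (Z3 x) * Z3 y).re + inner ℝ (P x) (P y)
  decomp : ∀ x, J1 (Z1 x) + J2 (Z2 x) + J3 (Z3 x) + P x = x
  Z1J1 : ∀ z, Z1 (J1 z) = z
  Z1J2 : ∀ z, Z1 (J2 z) = 0
  Z1J3 : ∀ z, Z1 (J3 z) = 0
  Z1P : ∀ z, Z1 (P z) = 0
  Z2J1 : ∀ z, Z2 (J1 z) = 0
  Z2J2 : ∀ z, Z2 (J2 z) = z
  Z2J3 : ∀ z, Z2 (J3 z) = 0
  Z2P : ∀ z, Z2 (P z) = 0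
  Z3J1 : ∀ z, Z3 (J1 z) = 0
  Z3J2 : ∀ z, Z3 (J2 z) = 0
  Z3J3 : ∀ z, Z3 (J3 z) = z
  Z3P : ∀ z, Z3 (P z) = 0
  PJ1 : ∀ z, P (J1 z) = 0
  PJ2 : ∀ z, P (J2 z) = 0
  PJ3 : ∀ z, P (J3 z) = 0
  PP : ∀ z, P (P z) = P z

attribute [simp] Dec.Z1J1 Dec.Z1J2 Dec.Z1J3 Dec.Z1P Dec.Z2J1 Dec.Z2J2 Dec.Z2J3 Dec.Z2P
  Dec.Z3J1 Dec.Z3J2 Dec.Z3J3 Dec.Z3P Dec.PJ1 Dec.PJ2 Dec.PJ3 Dec.PP

/-- two orthonormal vectors give the map to `ℂ` -/
noncomputable def zmap (a b : V) : V →L[ℝ] ℂ :=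
  (innerSL ℝ a).smulRight (1 : ℂ) + (innerSL ℝ b).smulRight Complex.I

noncomputable def jmap (a b : V) : ℂ →L[ℝ] V :=
  Complex.reCLM.smulRight a + Complex.imCLM.smulRight b

lemma zmap_apply (a b x : V) : zmap a b x = ((inner ℝ a x : ℝ) : ℂ) + ((inner ℝ b x : ℝ) : ℂ) * Complex.I := by
  simp [zmap]

lemma jmap_apply (a b : V) (z : ℂ) : jmap a b z = z.re • a + z.im • b := by
  simp [jmap]

/-- the decomposition attached to six orthonormal vectors -/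
noncomputable def Dec.ofOrthonormal (e : Fin 6 → V) (he : Orthonormal ℝ e) : Dec V := by
  have hn : ∀ i j, inner ℝ (e i) (e j) = if i = j then (1:ℝ) else 0 := fun i j => by
    simpa using orthonormal_iff_ite.mp he i j
  let P : V →L[ℝ] V := ContinuousLinearMap.id ℝ V - ∑ i, (innerSL ℝ (e i)).smulRight (e i)
  have hP : ∀ x, P x = x - ∑ i, inner ℝ (e i) x • e i := fun x => by simp [P]
  have hPe : ∀ j, P (e j) = 0 := by
    intro j
    rw [hP]
    simp [hn]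
  have hinn : ∀ j x, inner ℝ (e j) (P x) = 0 := by
    intro j x
    rw [hP, inner_sub_right, inner_sum]
    simp [inner_smul_right, hn]
  have hinn' : ∀ j x, inner ℝ (P x) (e j) = 0 := by
    intro j x
    rw [real_inner_comm]; exact hinn j x
  have hPx : ∀ x, P x = x - (inner ℝ (e 0) x • e 0 + inner ℝ (e 1) x • e 1 + inner ℝ (e 2) x • e 2
      + inner ℝ (e 3) x • e 3 + inner ℝ (e 4) x • e 4 + inner ℝ (e 5) x • e 5) := by
    intro x
    rw [hP, Fin.sum_univ_six]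
  have hxy : ∀ x y : V, inner ℝ x y = inner ℝ (e 0) x * inner ℝ (e 0) y + inner ℝ (e 1) x * inner ℝ (e 1) y
      + inner ℝ (e 2) x * inner ℝ (e 2) y + inner ℝ (e 3) x * inner ℝ (e 3) y
      + inner ℝ (e 4) x * inner ℝ (e 4) y + inner ℝ (e 5) x * inner ℝ (e 5) y
      + inner ℝ (P x) (P y) := by
    intro x y
    have hx : x = ∑ i, inner ℝ (e i) x • e i + P x := by rw [hP]; abel
    have hy : y = ∑ i, inner ℝ (e i) y • e i + P y := by rw [hP]; abel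
    have h1 : inner ℝ x y = inner ℝ (∑ i, inner ℝ (e i) x • e i + P x) (∑ i, inner ℝ (e i) y • e i + P y) := by
      rw [← hx, ← hy]
    rw [h1]
    simp only [inner_add_left, inner_add_right, sum_inner, inner_sum, inner_smul_left, inner_smul_right, hn, hinn, hinn']
    simp [Fin.sum_univ_six]
    ring
  have hne : ∀ i, ‖e i‖ = 1 := he.1
  exact
  { Z1 := zmap (e 0) (e 1)
    Z2 := zmap (e 2) (e 3)
    Z3 := zmap (e 4) (e 5)
    J1 := jmap (e 0) (e 1)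
    J2 := jmap (e 2) (e 3)
    J3 := jmap (e 4) (e 5)
    P := P
    inner_eq := by
      intro x y
      rw [hxy x y]
      simp [zmap_apply]
      ring
    decomp := by
      intro x
      rw [hPx]
      simp [zmap_apply, jmap_apply]
      abel
    Z1J1 := by
      intro z
      apply Complex.ext <;> simp [zmap_apply, jmap_apply, inner_add_right, inner_smul_right, hn, hne]
    Z1J2 := by
      intro z
      apply Complex.ext <;> simp [zmap_apply, jmap_apply, inner_add_right, inner_smul_right, hn, hne]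
    Z1J3 := by
      intro z
      apply Complex.ext <;> simp [zmap_apply, jmap_apply, inner_add_right, inner_smul_right, hn, hne]
    Z1P := by
      intro x
      simp [zmap_apply, hinn]
    Z2J1 := by
      intro z
      apply Complex.ext <;> simp [zmap_apply, jmap_apply, inner_add_right, inner_smul_right, hn, hne]
    Z2J2 := by
      intro z
      apply Complex.ext <;> simp [zmap_apply, jmap_apply, inner_add_right, inner_smul_right, hn, hne]
    Z2J3 := by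
      intro z
      apply Complex.ext <;> simp [zmap_apply, jmap_apply, inner_add_right, inner_smul_right, hn, hne]
    Z2P := by
      intro x
      simp [zmap_apply, hinn]
    Z3J1 := by
      intro z
      apply Complex.ext <;> simp [zmap_apply, jmap_apply, inner_add_right, inner_smul_right, hn, hne]
    Z3J2 := by
      intro z
      apply Complex.ext <;> simp [zmap_apply, jmap_apply, inner_add_right, inner_smul_right, hn, hne]
    Z3J3 := by
      intro z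
      apply Complex.ext <;> simp [zmap_apply, jmap_apply, inner_add_right, inner_smul_right, hn, hne]
    Z3P := by
      intro x
      simp [zmap_apply, hinn]
    PJ1 := by
      intro z
      simp [jmap_apply, hPe]
    PJ2 := by
      intro z
      simp [jmap_apply, hPe]
    PJ3 := by
      intro z
      simp [jmap_apply, hPe]
    PP := by
      intro x
      rw [hP (P x)]
      simp [hinn] }

end

section

variable {V : Type*} [NormedAddCommGroup V] [InnerProductSpace ℝ V]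

/-! ### the example -/

lemma second_of_first {z z' c : ℝ → ℂ} {z'' c' : ℂ}
    (hz : HasDerivAt z (z' 0) 0) (hz' : HasDerivAt z' z'' 0) (hc : HasDerivAt c c' 0)
    (h : ∀ᶠ t in 𝓝 (0 : ℝ), z' t = c t * z t) : z'' = (c' + c 0 ^ 2) * z 0 := by
  have h1 : HasDerivAt z' (c' * z 0 + c 0 * z' 0) 0 := (hc.mul hz).congr_of_eventuallyEq h
  have h2 := hz'.unique h1
  have h3 : z' 0 = c 0 * z 0 := h.self_of_nhds
  rw [h2, h3]; ring

lemma circle_curve {z z' : ℝ → ℂ} {r : ℝ} (hr : r ≠ 0)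
    (hz : ∀ t, HasDerivAt z (z' t) t) 
    (h : ∀ᶠ t in 𝓝 (0 : ℝ), Complex.normSq (z t) = r ^ 2) :
    ∀ᶠ t in 𝓝 (0 : ℝ), z' t = Complex.I * (((conj (z t) * z' t).im / r ^ 2 : ℝ) : ℂ) * z t := by
  have h0 : ∀ᶠ t in 𝓝 (0 : ℝ), ∀ᶠ s in 𝓝 t, Complex.normSq (z s) = r ^ 2 := h.eventually_nhds
  filter_upwards [h, h0] with t ht ht0
  have hd : HasDerivAt (fun s => (conj (z s) * z s)) (conj (z' t) * z t + conj (z t) * z' t) t := by
    have h1 : HasDerivAt (fun s => conj (z s)) (conj (z' t)) t := by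
      exact (hz t).star
    exact h1.mul (hz t)
  have hconst : HasDerivAt (fun s => (conj (z s) * z s)) 0 t := by
    have : (fun s => (conj (z s) * z s)) =ᶠ[𝓝 t] fun _ => ((r ^ 2 : ℝ) : ℂ) := by
      filter_upwards [ht0] with s hs
      rw [mul_comm, Complex.mul_conj, hs]
    exact (hasDerivAt_const t _).congr_of_eventuallyEq this
  have heq := hd.unique hconst
  have hre : (conj (z t) * z' t).re = 0 := by
    have := congrArg Complex.re heq
    simp at this ⊢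
    linarith
  have hmul : z t * conj (z t) = ((r ^ 2 : ℝ) : ℂ) := by rw [Complex.mul_conj, ht]
  have hz1 : conj (z t) * z' t = Complex.I * ((conj (z t) * z' t).im : ℂ) := by
    apply Complex.ext
    · rw [hre]; simp
    · simp
  have hr2 : ((r ^ 2 : ℝ) : ℂ) ≠ 0 := by
    exact_mod_cast pow_ne_zero 2 hr
  have h3 : ((r ^ 2 : ℝ) : ℂ) * z' t = z t * (Complex.I * ((conj (z t) * z' t).im : ℂ)) := by
    rw [← hz1, ← hmul]; ring
  rw [Complex.ofReal_div]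
  have h4 : z' t = (z t * (Complex.I * ((conj (z t) * z' t).im : ℂ))) / ((r ^ 2 : ℝ) : ℂ) := by
    rw [eq_div_iff hr2, mul_comm]; exact h3
  calc z' t = _ := h4
    _ = _ := by ring


/-- the example: `{(z₁,z₂,z₃,y)}` with `|z₁|=|z₂|=r`, `z₃ = μ conj(z₁z₂)^k` inside the unit sphere -/
def exM (D : Dec V) (k : ℕ) (r μ : ℝ) : Set V :=
  {x | Complex.normSq (D.Z1 x) = r ^ 2 ∧ Complex.normSq (D.Z2 x) = r ^ 2 ∧
    D.Z3 x = μ * (conj (D.Z1 x * D.Z2 x)) ^ k ∧ ‖x‖ ^ 2 = 1}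

/-- explicit description of the tangent space of the example -/
def Tan (D : Dec V) (k : ℕ) (x v : V) (a b : ℝ) : Prop :=
  D.Z1 v = Complex.I * a * D.Z1 x ∧ D.Z2 v = Complex.I * b * D.Z2 x ∧
    D.Z3 v = -(Complex.I * (k * (a + b))) * D.Z3 x ∧ inner ℝ (D.P x) (D.P v) = 0

lemma contDiff_hasDerivAt {γ : ℝ → V} (h : ContDiff ℝ ∞ γ) (t : ℝ) : HasDerivAt γ (deriv γ t) t :=
  (h.differentiable (by simp)).differentiableAt.hasDerivAt

lemma contDiff_hasDerivAt2 {γ : ℝ → V} (h : ContDiff ℝ ∞ γ) (t : ℝ) :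
    HasDerivAt (deriv γ) (deriv (deriv γ) t) t := by
  have h1 : ContDiff ℝ ∞ (deriv γ) := by
    have := (contDiff_infty_iff_deriv.mp h).2
    exact this
  exact contDiff_hasDerivAt h1 t

lemma clm_hasDerivAt {F : Type*} [NormedAddCommGroup F] [NormedSpace ℝ F] (L : V →L[ℝ] F) {γ : ℝ → V} {v : V} {t : ℝ}
    (h : HasDerivAt γ v t) : HasDerivAt (fun s => L (γ s)) (L v) t :=
  L.hasFDerivAt.comp_hasDerivAt t h

lemma curve_analysis (D : Dec V) {k : ℕ} {r μ : ℝ} (hr : r ≠ 0) {x : V} {γ : ℝ → V}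
    (h : IsCurveAt (exM D k r μ) x γ) :
    ∃ a b a' b' : ℝ, Tan D k x (deriv γ 0) a b ∧
      D.Z1 (deriv (deriv γ) 0) = (Complex.I * a' - a ^ 2) * D.Z1 x ∧
      D.Z2 (deriv (deriv γ) 0) = (Complex.I * b' - b ^ 2) * D.Z2 x ∧
      D.Z3 (deriv (deriv γ) 0) = (-(Complex.I * (k * (a' + b'))) - (k * (a + b)) ^ 2) * D.Z3 x ∧
      inner ℝ x (deriv (deriv γ) 0) = - ‖deriv γ 0‖ ^ 2 ∧
      deriv (deriv (fun t => (D.Z1 (γ t) * D.Z2 (γ t)).re)) 0 =
        ((Complex.I * (a' + b') - (a + b) ^ 2) * (D.Z1 x * D.Z2 x)).re := by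
  obtain ⟨hs, h0, hM⟩ := h
  have hd : ∀ t, HasDerivAt γ (deriv γ t) t := contDiff_hasDerivAt hs
  have hd2 : ∀ t, HasDerivAt (deriv γ) (deriv (deriv γ) t) t := contDiff_hasDerivAt2 hs
  have z1 := fun t => clm_hasDerivAt D.Z1 (hd t)
  have z2 := fun t => clm_hasDerivAt D.Z2 (hd t)
  have z3 := fun t => clm_hasDerivAt D.Z3 (hd t)
  have z1' := fun t => clm_hasDerivAt D.Z1 (hd2 t)
  have z2' := fun t => clm_hasDerivAt D.Z2 (hd2 t)
  have z3' := fun t => clm_hasDerivAt D.Z3 (hd2 t)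
  obtain ⟨a, ⟨a', ha'⟩, e1⟩ : ∃ a : ℝ → ℝ, (∃ a', HasDerivAt a a' 0) ∧
      ∀ᶠ t in 𝓝 (0 : ℝ), D.Z1 (deriv γ t) = Complex.I * (a t : ℂ) * D.Z1 (γ t) := by
    refine ⟨fun t => (conj (D.Z1 (γ t)) * D.Z1 (deriv γ t)).im / r ^ 2, ?_,
      circle_curve hr z1 (hM.mono fun t ht => ht.1)⟩
    have h1 := ((z1 0).star.mul (z1' 0))
    have h2 := (Complex.imCLM.hasFDerivAt).comp_hasDerivAt (0:ℝ) h1
    exact ⟨_, h2.div_const (r ^ 2)⟩
  obtain ⟨b, ⟨b', hb'⟩, e2⟩ : ∃ b : ℝ → ℝ, (∃ b', HasDerivAt b b' 0) ∧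
      ∀ᶠ t in 𝓝 (0 : ℝ), D.Z2 (deriv γ t) = Complex.I * (b t : ℂ) * D.Z2 (γ t) := by
    refine ⟨fun t => (conj (D.Z2 (γ t)) * D.Z2 (deriv γ t)).im / r ^ 2, ?_,
      circle_curve hr z2 (hM.mono fun t ht => ht.2.1)⟩
    have h1 := ((z2 0).star.mul (z2' 0))
    have h2 := (Complex.imCLM.hasFDerivAt).comp_hasDerivAt (0:ℝ) h1
    exact ⟨_, h2.div_const (r ^ 2)⟩
  have hac : HasDerivAt (fun t => Complex.I * (a t : ℂ)) (Complex.I * (a' : ℂ)) 0 :=
    (ha'.ofReal_comp).const_mul _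
  have hbc : HasDerivAt (fun t => Complex.I * (b t : ℂ)) (Complex.I * (b' : ℂ)) 0 :=
    (hb'.ofReal_comp).const_mul _
  have E1 := second_of_first (z1 0) (z1' 0) hac e1
  have E2 := second_of_first (z2 0) (z2' 0) hbc e2
  -- the product
  have hp : ∀ t, HasDerivAt (fun s => D.Z1 (γ s) * D.Z2 (γ s))
      (D.Z1 (deriv γ t) * D.Z2 (γ t) + D.Z1 (γ t) * D.Z2 (deriv γ t)) t := fun t => (z1 t).mul (z2 t)
  have hp' : HasDerivAt (fun t => D.Z1 (deriv γ t) * D.Z2 (γ t) + D.Z1 (γ t) * D.Z2 (deriv γ t))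
      ((D.Z1 (deriv (deriv γ) 0) * D.Z2 (γ 0) + D.Z1 (deriv γ 0) * D.Z2 (deriv γ 0)) +
       (D.Z1 (deriv γ 0) * D.Z2 (deriv γ 0) + D.Z1 (γ 0) * D.Z2 (deriv (deriv γ) 0))) 0 :=
    ((z1' 0).mul (z2 0)).add ((z1 0).mul (z2' 0))
  have e3 : ∀ᶠ t in 𝓝 (0 : ℝ), D.Z3 (deriv γ t) = -(Complex.I * (k * (a t + b t))) * D.Z3 (γ t) := by
    have hM2 : ∀ᶠ t in 𝓝 (0 : ℝ), ∀ᶠ s in 𝓝 t, γ s ∈ exM D k r μ := hM.eventually_nhds
    filter_upwards [e1, e2, hM, hM2] with t h1 h2 h3 h4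
    have hd3 : HasDerivAt (fun s => (μ : ℂ) * (conj (D.Z1 (γ s) * D.Z2 (γ s))) ^ k)
      ((μ : ℂ) * ((k : ℂ) * (conj (D.Z1 (γ t) * D.Z2 (γ t))) ^ (k - 1) *
        conj (D.Z1 (deriv γ t) * D.Z2 (γ t) + D.Z1 (γ t) * D.Z2 (deriv γ t)))) t :=
      (((hp t).star).pow k).const_mul _
    have hd4 : HasDerivAt (fun s => D.Z3 (γ s)) _ t :=
      hd3.congr_of_eventuallyEq (h4.mono fun s hs => hs.2.2.1)
    have h5 := (z3 t).unique hd4
    rw [h5, h1, h2, h3.2.2.1]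
    simp only [map_mul, map_add, Complex.conj_I, Complex.conj_ofReal]
    rcases k with _ | k
    · simp
    · simp only [Nat.add_sub_cancel, pow_succ]
      ring
  have hcc : HasDerivAt (fun t => -(Complex.I * (k * ((a t : ℂ) + (b t : ℂ)))))
      (-(Complex.I * (k * ((a' : ℂ) + (b' : ℂ))))) 0 :=
    (((ha'.ofReal_comp.add hb'.ofReal_comp).const_mul (k : ℂ)).const_mul Complex.I).neg
  have E3 := second_of_first (z3 0) (z3' 0) hcc e3
  have F1 := e1.self_of_nhds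
  have F2 := e2.self_of_nhds
  have F3 := e3.self_of_nhds
  -- the norm
  have hn : ∀ t, HasDerivAt (fun s => ‖γ s‖ ^ 2) (2 * inner ℝ (γ t) (deriv γ t)) t := fun t => (hd t).norm_sq
  have hn2 : HasDerivAt (fun t => 2 * inner ℝ (γ t) (deriv γ t))
      (2 * (inner ℝ (γ 0) (deriv (deriv γ) 0) + inner ℝ (deriv γ 0) (deriv γ 0))) 0 :=
    ((hd 0).inner ℝ (hd2 0)).const_mul 2
  have en : ∀ᶠ t in 𝓝 (0 : ℝ), 2 * inner ℝ (γ t) (deriv γ t) = 0 := by
    have hM2 : ∀ᶠ t in 𝓝 (0 : ℝ), ∀ᶠ s in 𝓝 t, γ s ∈ exM D k r μ := hM.eventually_nhds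
    filter_upwards [hM2] with t h4
    have hd4 : HasDerivAt (fun s => ‖γ s‖ ^ 2) 0 t :=
      (hasDerivAt_const t (1:ℝ)).congr_of_eventuallyEq (h4.mono fun s hs => hs.2.2.2)
    exact (hn t).unique hd4
  have en2 : (2 * (inner ℝ (γ 0) (deriv (deriv γ) 0) + inner ℝ (deriv γ 0) (deriv γ 0))) = 0 :=
    hn2.unique ((hasDerivAt_const (0:ℝ) (0:ℝ)).congr_of_eventuallyEq en)
  have en1 := en.self_of_nhds
  have hr2 : r ^ 2 ≠ 0 := pow_ne_zero 2 hr
  rw [h0] at F1 F2 F3 E1 E2 E3 en2 en1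
  refine ⟨a 0, b 0, a', b', ⟨F1, F2, F3, ?_⟩, ?_, ?_, ?_, ?_, ?_⟩
  · have h1 : inner ℝ x (deriv γ 0) = 0 := by linarith
    rw [D.inner_eq, F1, F2, F3] at h1
    have h2 : ∀ z : ℂ, ∀ c : ℝ, (conj z * (Complex.I * (c:ℂ) * z)).re = 0 := by
      intro z c; simp; ring
    have h3 : (conj (D.Z3 x) * (-(Complex.I * (k * ((a 0 : ℂ) + (b 0 : ℂ)))) * D.Z3 x)).re = 0 := by
      have h4 := h2 (D.Z3 x) (-(k * (a 0 + b 0)))
      push_cast at h4
      have h5 : (conj (D.Z3 x) * (-(Complex.I * (k * ((a 0 : ℂ) + (b 0 : ℂ)))) * D.Z3 x)) =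
        conj (D.Z3 x) * (Complex.I * -((k:ℂ) * ((a 0 : ℂ) + (b 0 : ℂ))) * D.Z3 x) := by ring
      rw [h5]; exact h4
    rw [h2, h2, h3] at h1
    linarith
  · rw [E1]; congr 1; rw [mul_pow, Complex.I_sq]; ring
  · rw [E2]; congr 1; rw [mul_pow, Complex.I_sq]; ring
  · rw [E3]; congr 1; rw [neg_sq, mul_pow, Complex.I_sq]; ring
  · rw [real_inner_self_eq_norm_sq] at en2; linarith
  · have hre : ∀ t, HasDerivAt (fun s => (D.Z1 (γ s) * D.Z2 (γ s)).re)
      (D.Z1 (deriv γ t) * D.Z2 (γ t) + D.Z1 (γ t) * D.Z2 (deriv γ t)).re t := fun t =>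
      (Complex.reCLM.hasFDerivAt).comp_hasDerivAt t (hp t)
    have hre' := (Complex.reCLM.hasFDerivAt).comp_hasDerivAt (0:ℝ) hp'
    have : deriv (fun s => (D.Z1 (γ s) * D.Z2 (γ s)).re) =
      fun t => (D.Z1 (deriv γ t) * D.Z2 (γ t) + D.Z1 (γ t) * D.Z2 (deriv γ t)).re := by
      funext t; exact (hre t).deriv
    rw [this]
    have h6 := hre'.deriv
    have h7 : (Complex.reCLM ∘ fun t => D.Z1 (deriv γ t) * D.Z2 (γ t) + D.Z1 (γ t) * D.Z2 (deriv γ t)) =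
      fun t => (D.Z1 (deriv γ t) * D.Z2 (γ t) + D.Z1 (γ t) * D.Z2 (deriv γ t)).re := rfl
    rw [← h7, h6, h0, E1, E2, F1, F2]
    simp only [Complex.reCLM_apply]
    congr 1
    have hI : Complex.I ^ 2 = -1 := Complex.I_sq
    linear_combination (((a 0 : ℂ) ^ 2 + (b 0:ℂ) ^ 2) + 2 * (a 0 : ℂ) * (b 0 : ℂ)) * (D.Z1 x * D.Z2 x) * hI

end

section

variable {V : Type*} [NormedAddCommGroup V] [InnerProductSpace ℝ V]

/-- explicit curves -/
noncomputable def G (D : Dec V) (a b c q : ℝ) (z1 z2 z3 : ℂ) (y w : V) (t : ℝ) : V :=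
  D.J1 (Complex.exp (Complex.I * a * t) * z1) + D.J2 (Complex.exp (Complex.I * b * t) * z2)
    + D.J3 (Complex.exp (Complex.I * c * t) * z3) + Real.cos (q * t) • y + Real.sin (q * t) • w

lemma G_contDiff (D : Dec V) (a b c q : ℝ) (z1 z2 z3 : ℂ) (y w : V) :
    ContDiff ℝ ∞ (G D a b c q z1 z2 z3 y w) := by
  have h : ∀ (a : ℝ) (z : ℂ), ContDiff ℝ ∞ fun t : ℝ => Complex.exp (Complex.I * a * t) * z := by
    intro a z
    have h1 : ContDiff ℝ ∞ fun t : ℝ => (Complex.I * a * (t:ℂ)) :=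
      contDiff_const.mul Complex.ofRealCLM.contDiff
    exact (h1.cexp).mul contDiff_const
  have hc : ContDiff ℝ ∞ fun t : ℝ => Real.cos (q * t) := Real.contDiff_cos.comp (contDiff_const.mul contDiff_id)
  have hs : ContDiff ℝ ∞ fun t : ℝ => Real.sin (q * t) := Real.contDiff_sin.comp (contDiff_const.mul contDiff_id)
  unfold G
  exact ((((D.J1.contDiff.comp (h a z1)).add (D.J2.contDiff.comp (h b z2))).add
    (D.J3.contDiff.comp (h c z3))).add (hc.smul contDiff_const)).add (hs.smul contDiff_const)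

lemma G_hasDerivAt (D : Dec V) (a b c q : ℝ) (z1 z2 z3 : ℂ) (y w : V) (t : ℝ) :
    HasDerivAt (G D a b c q z1 z2 z3 y w)
      (G D a b c q (Complex.I * a * z1) (Complex.I * b * z2) (Complex.I * c * z3) (q • w) (-(q • y)) t) t := by
  have h : ∀ (a : ℝ) (z : ℂ), HasDerivAt (fun t : ℝ => Complex.exp (Complex.I * a * t) * z)
      (Complex.exp (Complex.I * a * t) * (Complex.I * a * z)) t := by
    intro a z
    have h1 : HasDerivAt (fun t : ℝ => (Complex.I * a * (t:ℂ))) (Complex.I * a) t := by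
      simpa using (HasDerivAt.ofReal_comp (hasDerivAt_id t)).const_mul (Complex.I * a)
    have h2 := (h1.cexp).mul_const z
    rw [mul_assoc] at h2
    exact h2
  have hw : HasDerivAt (fun t : ℝ => q * t) q t := by simpa using (hasDerivAt_id t).const_mul q
  have hc : HasDerivAt (fun t : ℝ => Real.cos (q * t)) (-Real.sin (q * t) * q) t :=
    (Real.hasDerivAt_cos (q * t)).comp t hw
  have hs : HasDerivAt (fun t : ℝ => Real.sin (q * t)) (Real.cos (q * t) * q) t :=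
    (Real.hasDerivAt_sin (q * t)).comp t hw
  have h4 := (((((D.J1.hasFDerivAt.comp_hasDerivAt t (h a z1)).add
    (D.J2.hasFDerivAt.comp_hasDerivAt t (h b z2))).add
    (D.J3.hasFDerivAt.comp_hasDerivAt t (h c z3))).add (hc.smul_const y)).add (hs.smul_const w))
  have h5 : HasDerivAt (G D a b c q z1 z2 z3 y w) _ t := h4
  convert h5 using 1
  simp only [G]
  rw [smul_smul, smul_neg, smul_smul, neg_mul, neg_smul]
  abel

lemma G_zero (D : Dec V) (a b c q : ℝ) (z1 z2 z3 : ℂ) (y w : V) :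
    G D a b c q z1 z2 z3 y w 0 = D.J1 z1 + D.J2 z2 + D.J3 z3 + y := by
  simp [G]

lemma G_deriv (D : Dec V) (a b c q : ℝ) (z1 z2 z3 : ℂ) (y w : V) :
    deriv (G D a b c q z1 z2 z3 y w) =
      G D a b c q (Complex.I * a * z1) (Complex.I * b * z2) (Complex.I * c * z3) (q • w) (-(q • y)) := by
  funext t
  exact (G_hasDerivAt D a b c q z1 z2 z3 y w t).deriv

lemma conj_exp_I (a t : ℝ) : conj (Complex.exp (Complex.I * a * t)) = Complex.exp (-(Complex.I * a * t)) := by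
  rw [← Complex.exp_conj]; simp

lemma normSq_exp_I (a t : ℝ) : Complex.normSq (Complex.exp (Complex.I * a * t)) = 1 := by
  have h : Complex.I * a * t = ((a * t : ℝ) : ℂ) * Complex.I := by push_cast; ring
  rw [Complex.normSq_eq_norm_sq, h, Complex.norm_exp_ofReal_mul_I]; norm_num

lemma Dec.norm_sq (D : Dec V) (x : V) : ‖x‖ ^ 2 = Complex.normSq (D.Z1 x) + Complex.normSq (D.Z2 x)
    + Complex.normSq (D.Z3 x) + ‖D.P x‖ ^ 2 := by
  rw [← real_inner_self_eq_norm_sq, D.inner_eq, real_inner_self_eq_norm_sq]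
  have h : ∀ z : ℂ, (conj z * z).re = Complex.normSq z := by
    intro z; rw [mul_comm, Complex.mul_conj]; simp
  rw [h, h, h]

/-- tangent vectors of the example are realised by explicit curves with normal acceleration -/
lemma exists_curve (D : Dec V) {k : ℕ} {r μ ρ : ℝ} (hρ : 0 < ρ) {x : V}
    (hx : x ∈ exM D k r μ) (hPx : ‖D.P x‖ = ρ) {v : V} {a b : ℝ} (hv : Tan D k x v a b) :
    ∃ γ : ℝ → V, IsCurveAt (exM D k r μ) x γ ∧ deriv γ 0 = v ∧
      D.Z1 (deriv (deriv γ) 0) = -(a ^ 2 : ℝ) * D.Z1 x ∧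
      D.Z2 (deriv (deriv γ) 0) = -(b ^ 2 : ℝ) * D.Z2 x ∧
      D.Z3 (deriv (deriv γ) 0) = -((k * (a + b)) ^ 2 : ℝ) * D.Z3 x ∧
      D.P (deriv (deriv γ) 0) = -(‖D.P v‖ ^ 2 / ρ ^ 2) • D.P x := by
  obtain ⟨h1, h2, h3, h4⟩ := hv
  obtain ⟨hx1, hx2, hx3, hx4⟩ := hx
  set q : ℝ := ‖D.P v‖ / ρ with hq
  set w : V := (1 / q) • D.P v with hw
  set c : ℝ := -(k * (a + b)) with hc
  have hqw : q • w = D.P v := by
    by_cases h0 : D.P v = 0
    · simp [hw, h0]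
    · have : q ≠ 0 := div_ne_zero (norm_ne_zero_iff.mpr h0) hρ.ne'
      rw [hw, smul_smul, mul_one_div_cancel this, one_smul]
  have hyw : inner ℝ (D.P x) w = 0 := by
    rw [hw, inner_smul_right, h4, mul_zero]
  have hPw : D.P w = w := by rw [hw, map_smul, D.PP]
  refine ⟨G D a b c q (D.Z1 x) (D.Z2 x) (D.Z3 x) (D.P x) w, ⟨G_contDiff D a b c q _ _ _ _ _, ?_, ?_⟩, ?_, ?_⟩
  · rw [G_zero, D.decomp]
  · refine Eventually.of_forall fun t => ?_
    have e1 : D.Z1 (G D a b c q (D.Z1 x) (D.Z2 x) (D.Z3 x) (D.P x) w t) =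
        Complex.exp (Complex.I * a * t) * D.Z1 x := by
      simp only [G, map_add, map_smul, D.Z1J1, D.Z1J2, D.Z1J3, D.Z1P]
      rw [← hPw, D.Z1P]; simp
    have e2 : D.Z2 (G D a b c q (D.Z1 x) (D.Z2 x) (D.Z3 x) (D.P x) w t) =
        Complex.exp (Complex.I * b * t) * D.Z2 x := by
      simp only [G, map_add, map_smul, D.Z2J1, D.Z2J2, D.Z2J3, D.Z2P]
      rw [← hPw, D.Z2P]; simp
    have e3 : D.Z3 (G D a b c q (D.Z1 x) (D.Z2 x) (D.Z3 x) (D.P x) w t) =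
        Complex.exp (Complex.I * c * t) * D.Z3 x := by
      simp only [G, map_add, map_smul, D.Z3J1, D.Z3J2, D.Z3J3, D.Z3P]
      rw [← hPw, D.Z3P]; simp
    have e4 : D.P (G D a b c q (D.Z1 x) (D.Z2 x) (D.Z3 x) (D.P x) w t) =
        Real.cos (q * t) • D.P x + Real.sin (q * t) • w := by
      simp only [G, map_add, map_smul, D.PJ1, D.PJ2, D.PJ3, D.PP, hPw]
      simp
    refine ⟨?_, ?_, ?_, ?_⟩
    · rw [e1, map_mul, normSq_exp_I, one_mul, hx1]
    · rw [e2, map_mul, normSq_exp_I, one_mul, hx2]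
    · rw [e1, e2, e3, hx3]
      simp only [map_mul, conj_exp_I]
      rw [mul_pow, mul_pow, mul_pow, mul_pow, ← Complex.exp_nat_mul, ← Complex.exp_nat_mul]
      have : Complex.exp (Complex.I * c * t) =
          Complex.exp (k * (-(Complex.I * a * t))) * Complex.exp (k * (-(Complex.I * b * t))) := by
        rw [← Complex.exp_add]; congr 1; rw [hc]; push_cast; ring
      rw [this]; ring
    · rw [D.norm_sq, e1, e2, e3, e4, map_mul, map_mul, map_mul, normSq_exp_I, normSq_exp_I, normSq_exp_I]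
      rw [D.norm_sq] at hx4
      have hn : ‖Real.cos (q * t) • D.P x + Real.sin (q * t) • w‖ ^ 2 = ρ ^ 2 := by
        rw [norm_add_sq_real, inner_smul_left, inner_smul_right, hyw, norm_smul, norm_smul, hPx]
        by_cases h0 : D.P v = 0
        · have : q = 0 := by rw [hq, h0]; simp
          rw [this]; simp
        · have hn0 : ‖D.P v‖ ≠ 0 := norm_ne_zero_iff.mpr h0
          have hwn : ‖w‖ = ρ := by
            rw [hw, norm_smul, hq]
            simp only [one_div, inv_div, norm_div, norm_norm, Real.norm_eq_abs, abs_of_pos hρ, abs_norm]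
            field_simp
          rw [hwn, mul_pow, mul_pow, Real.norm_eq_abs, Real.norm_eq_abs, sq_abs, sq_abs]
          have := Real.sin_sq_add_cos_sq (q * t)
          simp only [mul_zero, add_zero]
          nlinarith
      rw [hn, ← hPx]; linarith
  · rw [G_deriv, G_zero, hqw]
    rw [← D.decomp v, h1, h2, h3]
    simp only [map_add, D.PJ1, D.PJ2, D.PJ3, D.PP]
    have : -(Complex.I * (k * ((a : ℂ) + b))) * D.Z3 x = Complex.I * c * D.Z3 x := by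
      rw [hc]; push_cast; ring
    rw [this]; simp
  · rw [G_deriv, G_deriv, G_zero]
    have hwc : w = (1 / q) • D.P v := hw
    have hZ1w : D.Z1 w = 0 := by rw [← hPw, D.Z1P]
    have hZ2w : D.Z2 w = 0 := by rw [← hPw, D.Z2P]
    have hZ3w : D.Z3 w = 0 := by rw [← hPw, D.Z3P]
    have hI : Complex.I ^ 2 = -1 := Complex.I_sq
    refine ⟨?_, ?_, ?_, ?_⟩
    · simp only [map_add, map_smul, map_neg, D.Z1J1, D.Z1J2, D.Z1J3, D.Z1P, smul_zero, neg_zero, add_zero]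
      push_cast
      linear_combination (a : ℂ) ^ 2 * D.Z1 x * hI
    · simp only [map_add, map_smul, map_neg, D.Z2J1, D.Z2J2, D.Z2J3, D.Z2P, smul_zero, neg_zero, add_zero, zero_add]
      push_cast
      linear_combination (b : ℂ) ^ 2 * D.Z2 x * hI
    · simp only [map_add, map_smul, map_neg, D.Z3J1, D.Z3J2, D.Z3J3, D.Z3P, smul_zero, neg_zero, add_zero, zero_add]
      rw [hc]
      push_cast
      linear_combination ((k : ℂ) * (a + b)) ^ 2 * D.Z3 x * hI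
    · simp only [map_add, map_smul, map_neg, D.PJ1, D.PJ2, D.PJ3, D.PP, zero_add]
      rw [smul_neg, smul_smul, ← neg_smul, hq]
      congr 1
      ring

end

section

variable {V : Type*} [NormedAddCommGroup V] [InnerProductSpace ℝ V]

lemma parseval {d : ℕ} [FiniteDimensional ℝ V] (T : Submodule ℝ V) (hT : finrank ℝ T = d) (v : Fin d → V)
    (hv : Orthonormal ℝ v) (hvT : ∀ i, v i ∈ T) {L : V} (hL : L ∈ T) :
    ∑ i, (inner ℝ (v i) L) ^ 2 = ‖L‖ ^ 2 := by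
  rcases Nat.eq_zero_or_pos d with h0 | h0
  · subst h0
    have : T = ⊥ := Submodule.finrank_eq_zero.mp hT
    have hL0 : L = 0 := by rw [this] at hL; simpa using hL
    simp [hL0]
  have : Nonempty (Fin d) := ⟨⟨0, h0⟩⟩
  let v' : Fin d → T := fun i => ⟨v i, hvT i⟩
  have hv' : Orthonormal ℝ v' := by
    rw [orthonormal_iff_ite] at hv ⊢
    intro i j
    exact hv i j
  let B := basisOfOrthonormalOfCardEqFinrank hv' (by simp [hT])
  have hB : (B : Fin d → T) = v' := coe_basisOfOrthonormalOfCardEqFinrank hv' (by simp [hT])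
  let OB : OrthonormalBasis (Fin d) ℝ T := B.toOrthonormalBasis (by rw [hB]; exact hv')
  have hOB : ∀ i, OB i = v' i := by
    intro i
    simp [OB, hB]
  have h := OB.sum_sq_norm_inner_right ⟨L, hL⟩
  simp only [hOB] at h
  have h2 : ∀ i, inner ℝ (v' i) (⟨L, hL⟩ : T) = inner ℝ (v i) L := fun i => rfl
  simp only [h2, Real.norm_eq_abs, sq_abs] at h
  exact h

/-- the five defining functions of the example -/
noncomputable def FF (D : Dec V) (k : ℕ) (r μ : ℝ) (x : V) : Fin 5 → ℝ :=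
  ![Complex.normSq (D.Z1 x) - r ^ 2, Complex.normSq (D.Z2 x) - r ^ 2,
    (D.Z3 x - μ * (conj (D.Z1 x * D.Z2 x)) ^ k).re, (D.Z3 x - μ * (conj (D.Z1 x * D.Z2 x)) ^ k).im,
    ‖x‖ ^ 2 - 1]

lemma mem_exM_iff (D : Dec V) (k : ℕ) (r μ : ℝ) (x : V) : x ∈ exM D k r μ ↔ FF D k r μ x = 0 := by
  simp only [exM, FF, Set.mem_ofPred_eq]
  constructor
  · rintro ⟨h1, h2, h3, h4⟩
    funext i
    fin_cases i <;> simp [h1, h2, h3, h4]
  · intro h
    have h0 := congrFun h 0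
    have h1 := congrFun h 1
    have h2 := congrFun h 2
    have h3 := congrFun h 3
    have h4 := congrFun h 4
    simp only [Matrix.cons_val_zero, Matrix.cons_val_one, Matrix.cons_val, Pi.zero_apply] at h0 h1 h2 h3 h4
    refine ⟨by linarith, by linarith, ?_, by linarith⟩
    rw [← sub_eq_zero]
    exact Complex.ext h2 h3

lemma contDiff_conj_pow (D : Dec V) (k : ℕ) (μ : ℝ) :
    ContDiff ℝ ∞ fun x => D.Z3 x - μ * (conj (D.Z1 x * D.Z2 x)) ^ k := by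
  have h1 : ContDiff ℝ ∞ fun x => D.Z1 x * D.Z2 x := D.Z1.contDiff.mul D.Z2.contDiff
  have h2 : ContDiff ℝ ∞ fun x => conj (D.Z1 x * D.Z2 x) := Complex.conjCLE.contDiff.comp h1
  exact D.Z3.contDiff.sub (contDiff_const.mul (h2.pow k))

lemma FF_contDiff (D : Dec V) (k : ℕ) (r μ : ℝ) : ContDiff ℝ ∞ (FF D k r μ) := by
  have hn : ∀ L : V →L[ℝ] ℂ, ContDiff ℝ ∞ fun x => Complex.normSq (L x) := by
    intro L
    have : (fun x => Complex.normSq (L x)) = fun x => (L x).re * (L x).re + (L x).im * (L x).im := by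
      funext x; exact Complex.normSq_apply _
    rw [this]
    have hre : ContDiff ℝ ∞ fun x => (L x).re := Complex.reCLM.contDiff.comp L.contDiff
    have him : ContDiff ℝ ∞ fun x => (L x).im := Complex.imCLM.contDiff.comp L.contDiff
    exact (hre.mul hre).add (him.mul him)
  have h3 := contDiff_conj_pow D k μ
  rw [contDiff_pi]
  intro i
  fin_cases i
  · exact (hn D.Z1).sub contDiff_const
  · exact (hn D.Z2).sub contDiff_const
  · exact Complex.reCLM.contDiff.comp h3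
  · exact Complex.imCLM.contDiff.comp h3
  · exact (contDiff_norm_sq ℝ).sub contDiff_const

lemma FF_fderiv (D : Dec V) (k : ℕ) (r μ : ℝ) (x v : V) :
    fderiv ℝ (FF D k r μ) x v = ![2 * (conj (D.Z1 x) * D.Z1 v).re, 2 * (conj (D.Z2 x) * D.Z2 v).re,
      (D.Z3 v - μ * (k * conj (D.Z1 x * D.Z2 x) ^ (k - 1) * conj (D.Z1 v * D.Z2 x + D.Z1 x * D.Z2 v))).re,
      (D.Z3 v - μ * (k * conj (D.Z1 x * D.Z2 x) ^ (k - 1) * conj (D.Z1 v * D.Z2 x + D.Z1 x * D.Z2 v))).im,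
      2 * inner ℝ x v] := by
  have hc : HasDerivAt (fun t : ℝ => x + t • v) v 0 := by
    simpa using ((hasDerivAt_id (0:ℝ)).smul_const v).const_add x
  have hF : HasFDerivAt (FF D k r μ) (fderiv ℝ (FF D k r μ) x) ((fun t : ℝ => x + t • v) 0) := by
    simp only [zero_smul, add_zero]
    exact ((FF_contDiff D k r μ).differentiable (by simp) x).hasFDerivAt
  have h1 : HasDerivAt (FF D k r μ ∘ fun t : ℝ => x + t • v) (fderiv ℝ (FF D k r μ) x v) 0 :=
    hF.comp_hasDerivAt (0:ℝ) hc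
  rw [hasDerivAt_pi] at h1
  have z1 : HasDerivAt (fun t : ℝ => D.Z1 (x + t • v)) (D.Z1 v) 0 := clm_hasDerivAt D.Z1 hc
  have z2 : HasDerivAt (fun t : ℝ => D.Z2 (x + t • v)) (D.Z2 v) 0 := clm_hasDerivAt D.Z2 hc
  have z3 : HasDerivAt (fun t : ℝ => D.Z3 (x + t • v)) (D.Z3 v) 0 := clm_hasDerivAt D.Z3 hc
  have hnorm : ∀ (L : V →L[ℝ] ℂ), HasDerivAt (fun t : ℝ => L (x + t • v)) (L v) 0 →
      HasDerivAt (fun t : ℝ => Complex.normSq (L (x + t • v)) - r ^ 2) (2 * (conj (L x) * L v).re) 0 := by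
    intro L hL
    have h2 := (Complex.reCLM.hasFDerivAt).comp_hasDerivAt (0:ℝ) (hL.star.mul hL)
    have h3 : (Complex.reCLM ∘ fun t : ℝ => star (L (x + t • v)) * (L (x + t • v))) =
        fun t : ℝ => Complex.normSq (L (x + t • v)) := by
      funext t
      have : star (L (x + t • v)) * (L (x + t • v)) = ((Complex.normSq (L (x + t • v)) : ℝ) : ℂ) := by
        rw [mul_comm]; exact Complex.mul_conj _
      simp only [Function.comp_apply, this]
      simp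
    have h4 : HasDerivAt (fun t : ℝ => Complex.normSq (L (x + t • v))) _ 0 := h3 ▸ h2
    have h5 := h4.sub_const (r ^ 2)
    have hval : Complex.reCLM (star (L v) * L (x + (0:ℝ) • v) + star (L (x + (0:ℝ) • v)) * L v) =
        2 * (conj (L x) * L v).re := by
      simp only [Complex.reCLM_apply, zero_smul, add_zero]
      have e1 : (star (L v) * L x).re = (star (L x) * L v).re := by
        have : star (star (L x) * L v) = star (L v) * L x := by rw [star_mul, star_star]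
        rw [← this]; simp
      rw [Complex.add_re, e1]
      have e2 : (conj (L x) * L v).re = (star (L x) * L v).re := rfl
      rw [e2]; ring
    rw [hval] at h5
    exact h5
  have hz : HasDerivAt (fun t : ℝ => D.Z3 (x + t • v) - μ * (conj (D.Z1 (x + t • v) * D.Z2 (x + t • v))) ^ k)
      (D.Z3 v - μ * (k * conj (D.Z1 x * D.Z2 x) ^ (k - 1) * conj (D.Z1 v * D.Z2 x + D.Z1 x * D.Z2 v))) 0 := by
    have hp : HasDerivAt (fun t : ℝ => D.Z1 (x + t • v) * D.Z2 (x + t • v))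
        (D.Z1 v * D.Z2 x + D.Z1 x * D.Z2 v) 0 := by
      have := z1.mul z2
      simp only [zero_smul, add_zero] at this
      exact this
    have hs : HasDerivAt (fun t : ℝ => conj (D.Z1 (x + t • v) * D.Z2 (x + t • v)))
        (conj (D.Z1 v * D.Z2 x + D.Z1 x * D.Z2 v)) 0 := hp.star
    have h2 := z3.sub ((hs.pow k).const_mul (μ : ℂ))
    simp only [zero_smul, add_zero] at h2
    exact h2
  funext i
  fin_cases i
  · exact (h1 0).unique (hnorm D.Z1 z1)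
  · exact (h1 1).unique (hnorm D.Z2 z2)
  · exact (h1 2).unique ((Complex.reCLM.hasFDerivAt).comp_hasDerivAt (0:ℝ) hz)
  · exact (h1 3).unique ((Complex.imCLM.hasFDerivAt).comp_hasDerivAt (0:ℝ) hz)
  · have h2 := (hc.norm_sq).sub_const (1:ℝ)
    simp only [zero_smul, add_zero] at h2
    exact (h1 4).unique h2

end

section

variable {V : Type*} [NormedAddCommGroup V] [InnerProductSpace ℝ V]

lemma re_conj_self_mul (z c : ℂ) : (conj z * (c * z)).re = c.re * Complex.normSq z := by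
  have : conj z * (c * z) = c * ((Complex.normSq z : ℝ) : ℂ) := by
    rw [← Complex.mul_conj]; ring
  rw [this]; simp

lemma FF_surjective (D : Dec V) {k : ℕ} {r μ ρ : ℝ} (hr : r ≠ 0) (hρ : ρ ≠ 0) {x : V}
    (hx : x ∈ exM D k r μ) (hPx : ‖D.P x‖ = ρ) :
    Function.Surjective (fderiv ℝ (FF D k r μ) x) := by
  intro s
  obtain ⟨hx1, hx2, hx3, hx4⟩ := hx
  have hr2 : r ^ 2 ≠ 0 := pow_ne_zero 2 hr
  have hρ2 : ρ ^ 2 ≠ 0 := pow_ne_zero 2 hρ
  set α : ℝ := s 0 / (2 * r ^ 2) with hα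
  set β : ℝ := s 1 / (2 * r ^ 2) with hβ
  set ζ : ℂ := (⟨s 2, s 3⟩ : ℂ) + μ * (k * conj (D.Z1 x * D.Z2 x) ^ (k - 1) *
    conj ((α * D.Z1 x) * D.Z2 x + D.Z1 x * (β * D.Z2 x))) with hζ
  set c : ℝ := (s 4 / 2 - α * r ^ 2 - β * r ^ 2 - (conj (D.Z3 x) * ζ).re) / ρ ^ 2 with hc
  refine ⟨D.J1 (α * D.Z1 x) + D.J2 (β * D.Z2 x) + D.J3 ζ + c • D.P x, ?_⟩
  rw [FF_fderiv]
  have e1 : D.Z1 (D.J1 (α * D.Z1 x) + D.J2 (β * D.Z2 x) + D.J3 ζ + c • D.P x) = α * D.Z1 x := by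
    simp only [map_add, map_smul, D.Z1J1, D.Z1J2, D.Z1J3, D.Z1P]; simp
  have e2 : D.Z2 (D.J1 (α * D.Z1 x) + D.J2 (β * D.Z2 x) + D.J3 ζ + c • D.P x) = β * D.Z2 x := by
    simp only [map_add, map_smul, D.Z2J1, D.Z2J2, D.Z2J3, D.Z2P]; simp
  have e3 : D.Z3 (D.J1 (α * D.Z1 x) + D.J2 (β * D.Z2 x) + D.J3 ζ + c • D.P x) = ζ := by
    simp only [map_add, map_smul, D.Z3J1, D.Z3J2, D.Z3J3, D.Z3P]; simp
  have e4 : D.P (D.J1 (α * D.Z1 x) + D.J2 (β * D.Z2 x) + D.J3 ζ + c • D.P x) = c • D.P x := by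
    simp only [map_add, map_smul, D.PJ1, D.PJ2, D.PJ3, D.PP]; simp
  rw [D.inner_eq, e1, e2, e3, e4]
  rw [re_conj_self_mul, re_conj_self_mul, hx1, hx2, inner_smul_right, real_inner_self_eq_norm_sq, hPx]
  have e5 : ζ - μ * (k * conj (D.Z1 x * D.Z2 x) ^ (k - 1) *
    conj ((α * D.Z1 x) * D.Z2 x + D.Z1 x * (β * D.Z2 x))) = (⟨s 2, s 3⟩ : ℂ) := by
    rw [hζ]; ring
  rw [e5]
  funext i
  fin_cases i
  · simp only [Fin.zero_eta, Matrix.cons_val_zero, Complex.ofReal_re]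
    rw [hα]; field_simp
  · simp only [Fin.mk_one, Matrix.cons_val_one, Matrix.cons_val_zero, Complex.ofReal_re]
    rw [hβ]; field_simp
  · simp
  · simp
  · simp only [Fin.reduceFinMk, Matrix.cons_val, Complex.ofReal_re]
    rw [hc]
    field_simp
    ring

/-- the kernel of the differential of the defining functions -/
lemma mem_ker_iff (D : Dec V) {k : ℕ} {r μ : ℝ} (hr : r ≠ 0) {x : V}
    (hx : x ∈ exM D k r μ) (v : V) :
    v ∈ (fderiv ℝ (FF D k r μ) x).toLinearMap.ker ↔ ∃ a b, Tan D k x v a b := by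
  obtain ⟨hx1, hx2, hx3, hx4⟩ := hx
  have hr2 : r ^ 2 ≠ 0 := pow_ne_zero 2 hr
  have hcr : ((r ^ 2 : ℝ) : ℂ) ≠ 0 := by exact_mod_cast hr2
  rw [LinearMap.mem_ker]
  have hcoe : ((fderiv ℝ (FF D k r μ) x).toLinearMap v) = fderiv ℝ (FF D k r μ) x v := rfl
  rw [hcoe, FF_fderiv]
  have key : ∀ z w : ℂ, Complex.normSq z = r ^ 2 → (conj z * w).re = 0 →
      w = Complex.I * (((conj z * w).im / r ^ 2 : ℝ) : ℂ) * z := by
    intro z w hz hw
    have hzw : conj z * w = Complex.I * ((conj z * w).im : ℂ) := by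
      apply Complex.ext
      · rw [hw]; simp
      · simp
    have hmul : z * conj z = ((r ^ 2 : ℝ) : ℂ) := by rw [Complex.mul_conj, hz]
    have h3 : ((r ^ 2 : ℝ) : ℂ) * w = z * (Complex.I * ((conj z * w).im : ℂ)) := by
      rw [← hzw, ← hmul]; ring
    rw [Complex.ofReal_div]
    have h4 : w = (z * (Complex.I * ((conj z * w).im : ℂ))) / ((r ^ 2 : ℝ) : ℂ) := by
      rw [eq_div_iff hcr, mul_comm]; exact h3
    calc w = _ := h4
      _ = _ := by ring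
  have hthird : ∀ a b : ℝ, D.Z1 v = Complex.I * a * D.Z1 x → D.Z2 v = Complex.I * b * D.Z2 x →
      μ * (k * conj (D.Z1 x * D.Z2 x) ^ (k - 1) * conj (D.Z1 v * D.Z2 x + D.Z1 x * D.Z2 v)) =
        -(Complex.I * (k * (a + b))) * D.Z3 x := by
    intro a b h1 h2
    rw [h1, h2, hx3]
    simp only [map_mul, map_add, Complex.conj_I, Complex.conj_ofReal]
    rcases k with _ | k
    · simp
    · simp only [Nat.add_sub_cancel, pow_succ]
      ring
  have hin : ∀ a b : ℝ, D.Z1 v = Complex.I * a * D.Z1 x → D.Z2 v = Complex.I * b * D.Z2 x →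
      D.Z3 v = -(Complex.I * (k * (a + b))) * D.Z3 x → inner ℝ x v = inner ℝ (D.P x) (D.P v) := by
    intro a b h1 h2 h3
    rw [D.inner_eq, h1, h2, h3, re_conj_self_mul, re_conj_self_mul, re_conj_self_mul]
    simp
  constructor
  · intro h
    have h0 := congrFun h 0
    have h1 := congrFun h 1
    have h2 := congrFun h 2
    have h3 := congrFun h 3
    have h4 := congrFun h 4
    simp only [Matrix.cons_val_zero, Matrix.cons_val_one, Matrix.cons_val, Pi.zero_apply] at h0 h1 h2 h3 h4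
    have g1 := key _ _ hx1 (by linarith : (conj (D.Z1 x) * D.Z1 v).re = 0)
    have g2 := key _ _ hx2 (by linarith : (conj (D.Z2 x) * D.Z2 v).re = 0)
    have g3 : D.Z3 v = μ * (k * conj (D.Z1 x * D.Z2 x) ^ (k - 1) * conj (D.Z1 v * D.Z2 x + D.Z1 x * D.Z2 v)) := by
      rw [← sub_eq_zero]; exact Complex.ext h2 h3
    rw [hthird _ _ g1 g2] at g3
    refine ⟨_, _, g1, g2, g3, ?_⟩
    rw [← hin _ _ g1 g2 g3]; linarith
  · rintro ⟨a, b, h1, h2, h3, h4⟩
    have g3 := hthird a b h1 h2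
    rw [g3, ← h3, sub_self, hin a b h1 h2 h3, h4, h1, h2, re_conj_self_mul, re_conj_self_mul]
    funext i
    fin_cases i <;> simp

end

section

variable {V : Type*} [NormedAddCommGroup V] [InnerProductSpace ℝ V]

/-- numerical data of the example -/
structure Params (k m : ℕ) (r μ ρ : ℝ) : Prop where
  hk : 1 ≤ k
  hm : 1 ≤ m
  hr : 0 < r
  hρ : 0 < ρ
  hr2 : r ^ 2 = 2 * (k : ℝ) ^ 2 / ((m + 2) * (4 * (k : ℝ) ^ 2 - 1))
  hμ2 : μ ^ 2 * (r ^ 2 * r ^ 2) ^ k = 2 * (2 * (k : ℝ) ^ 2 - 1) / ((m + 2) * (4 * (k : ℝ) ^ 2 - 1))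
  hρ2 : ρ ^ 2 = m / (m + 2)

variable {D : Dec V} {k m : ℕ} {r μ ρ : ℝ} {x : V}

lemma normSq_Z3 (hp : Params k m r μ ρ) (hx : x ∈ exM D k r μ) :
    Complex.normSq (D.Z3 x) = 2 * (2 * (k : ℝ) ^ 2 - 1) / ((m + 2) * (4 * (k : ℝ) ^ 2 - 1)) := by
  obtain ⟨h1, h2, h3, h4⟩ := hx
  rw [h3, map_mul, map_pow, Complex.normSq_conj, map_mul, h1, h2, Complex.normSq_ofReal, ← hp.hμ2]
  ring

lemma kpos (hp : Params k m r μ ρ) : (1 : ℝ) ≤ k := by exact_mod_cast hp.hk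

lemma norm_Px (hp : Params k m r μ ρ) (hx : x ∈ exM D k r μ) : ‖D.P x‖ = ρ := by
  have h3 := normSq_Z3 hp hx
  obtain ⟨h1, h2, -, h4⟩ := hx
  rw [D.norm_sq, h1, h2, h3, hp.hr2] at h4
  have hk := kpos hp
  have hm2 : (0:ℝ) < m + 2 := by positivity
  have hk2 : (0:ℝ) < 4 * (k:ℝ) ^ 2 - 1 := by nlinarith
  have h6 : 2 * (k : ℝ) ^ 2 / ((m + 2) * (4 * (k : ℝ) ^ 2 - 1)) + 2 * (k : ℝ) ^ 2 / ((m + 2) * (4 * (k : ℝ) ^ 2 - 1))
      + 2 * (2 * (k : ℝ) ^ 2 - 1) / ((m + 2) * (4 * (k : ℝ) ^ 2 - 1)) = 2 / (m + 2) := by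
    have hne : ((m:ℝ) + 2) * (4 * (k : ℝ) ^ 2 - 1) ≠ 0 := (mul_pos hm2 hk2).ne'
    rw [← add_div, ← add_div, div_eq_div_iff hne hm2.ne']
    ring
  have h5 : ‖D.P x‖ ^ 2 = ρ ^ 2 := by
    rw [hp.hρ2]
    have h7 : (m : ℝ) / (m + 2) = 1 - 2 / (m + 2) := by field_simp; ring
    rw [h7]; linarith
  exact (pow_left_inj₀ (norm_nonneg _) hp.hρ.le two_ne_zero).mp h5

/-- tangent space as a submodule -/
noncomputable def TS (D : Dec V) (k : ℕ) (r μ : ℝ) (x : V) : Submodule ℝ V :=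
  LinearMap.ker (fderiv ℝ (FF D k r μ) x).toLinearMap

lemma mem_TS (hp : Params k m r μ ρ) (hx : x ∈ exM D k r μ) (v : V) :
    v ∈ TS D k r μ x ↔ ∃ a b, Tan D k x v a b := mem_ker_iff D hp.hr.ne' hx v

lemma finrank_TS [FiniteDimensional ℝ V] (hp : Params k m r μ ρ) (hx : x ∈ exM D k r μ)
    (hV : finrank ℝ V = m + 7) : finrank ℝ (TS D k r μ x) = m + 2 := by
  have hs := FF_surjective D hp.hr.ne' hp.hρ.ne' hx (norm_Px hp hx)
  have h1 := LinearMap.finrank_range_add_finrank_ker (fderiv ℝ (FF D k r μ) x).toLinearMap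
  have h2 : LinearMap.range (fderiv ℝ (FF D k r μ) x).toLinearMap = ⊤ :=
    LinearMap.range_eq_top.mpr hs
  rw [h2, finrank_top, hV] at h1
  simp at h1
  have h3 : finrank ℝ (TS D k r μ x) = finrank ℝ (LinearMap.ker (fderiv ℝ (FF D k r μ) x).toLinearMap) := rfl
  rw [h3]
  omega

lemma isTangent_iff (hp : Params k m r μ ρ) (hx : x ∈ exM D k r μ) (v : V) :
    IsTangentAt (exM D k r μ) x v ↔ ∃ a b, Tan D k x v a b := by
  constructor
  · rintro ⟨γ, hγ, rfl⟩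
    obtain ⟨a, b, a', b', h, -⟩ := curve_analysis D hp.hr.ne' hγ
    exact ⟨a, b, h⟩
  · rintro ⟨a, b, h⟩
    obtain ⟨γ, hγ, hv, -⟩ := exists_curve D hp.hρ hx (norm_Px hp hx) h
    exact ⟨γ, hγ, hv⟩

/-- tangent vectors of the torus factor -/
noncomputable def tau (D : Dec V) (k : ℕ) (x : V) (α β : ℝ) : V :=
  D.J1 (Complex.I * α * D.Z1 x) + D.J2 (Complex.I * β * D.Z2 x)
    + D.J3 (-(Complex.I * (k * (α + β))) * D.Z3 x)

lemma tau_Z1 (α β : ℝ) : D.Z1 (tau D k x α β) = Complex.I * α * D.Z1 x := by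
  simp [tau]
lemma tau_Z2 (α β : ℝ) : D.Z2 (tau D k x α β) = Complex.I * β * D.Z2 x := by
  simp [tau]
lemma tau_Z3 (α β : ℝ) : D.Z3 (tau D k x α β) = -(Complex.I * (k * (α + β))) * D.Z3 x := by
  simp [tau]
lemma tau_P (α β : ℝ) : D.P (tau D k x α β) = 0 := by
  simp [tau]

lemma tau_tan (α β : ℝ) : Tan D k x (tau D k x α β) α β :=
  ⟨tau_Z1 α β, tau_Z2 α β, tau_Z3 α β, by rw [tau_P]; simp⟩

lemma re_mul_aux (z : ℂ) (u w : ℂ) : (conj (u * z) * (w * z)).re = (conj u * w).re * Complex.normSq z := by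
  have : conj (u * z) * (w * z) = (conj u * w) * ((Complex.normSq z : ℝ) : ℂ) := by
    rw [← Complex.mul_conj, map_mul]; ring
  rw [this]; simp

lemma inner_tau (hx : x ∈ exM D k r μ) {v : V} {a b : ℝ} (hv : Tan D k x v a b)
    (α β : ℝ) : inner ℝ v (tau D k x α β) =
      r ^ 2 * (a * α + b * β) + (k:ℝ) ^ 2 * Complex.normSq (D.Z3 x) * ((a + b) * (α + β)) := by
  obtain ⟨h1, h2, h3, h4⟩ := hv
  rw [D.inner_eq, tau_Z1, tau_Z2, tau_Z3, tau_P, h1, h2, h3, re_mul_aux, re_mul_aux, re_mul_aux, hx.1, hx.2.1]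
  simp
  ring


/-- for a curve with normal acceleration the acceleration is determined by the velocity -/
lemma normal_accel (hp : Params k m r μ ρ) (hx : x ∈ exM D k r μ) {γ : ℝ → V}
    (hγ : IsCurveAt (exM D k r μ) x γ)
    (hn : ∀ v, IsTangentAt (exM D k r μ) x v → inner ℝ (deriv (deriv γ) 0) v = 0) :
    ∃ a b : ℝ, Tan D k x (deriv γ 0) a b ∧
      D.Z1 (deriv (deriv γ) 0) = -(a ^ 2 : ℝ) * D.Z1 x ∧
      D.Z2 (deriv (deriv γ) 0) = -(b ^ 2 : ℝ) * D.Z2 x ∧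
      D.Z3 (deriv (deriv γ) 0) = -(((k:ℝ) * (a + b)) ^ 2 : ℝ) * D.Z3 x ∧
      D.P (deriv (deriv γ) 0) = -(‖D.P (deriv γ 0)‖ ^ 2 / ρ ^ 2) • D.P x ∧
      deriv (deriv (fun t => (D.Z1 (γ t) * D.Z2 (γ t)).re)) 0 = -(a + b) ^ 2 * (D.Z1 x * D.Z2 x).re := by
  obtain ⟨a, b, a', b', hT, e1, e2, e3, e4, e5⟩ := curve_analysis D hp.hr.ne' hγ
  set A := deriv (deriv γ) 0 with hA
  set v := deriv γ 0 with hv
  have hr2 : 0 < r ^ 2 := pow_pos hp.hr 2
  have hρ2 : ρ ^ 2 ≠ 0 := pow_ne_zero 2 hp.hρ.ne'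
  have hn3 : 0 ≤ Complex.normSq (D.Z3 x) := Complex.normSq_nonneg _
  -- the tangential coefficients vanish
  have ht := hn _ ((isTangent_iff hp hx _).mpr ⟨a', b', tau_tan (D := D) (k := k) (x := x) a' b'⟩)
  rw [D.inner_eq, tau_Z1, tau_Z2, tau_Z3, tau_P, e1, e2, e3, re_mul_aux, re_mul_aux, re_mul_aux,
    hx.1, hx.2.1] at ht
  have ht2 : r ^ 2 * (a' ^ 2 + b' ^ 2) + (k:ℝ) ^ 2 * Complex.normSq (D.Z3 x) * (a' + b') ^ 2 = 0 := by
    rw [← ht]
    simp [pow_two]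
    ring
  have h5 : 0 ≤ (k:ℝ) ^ 2 * Complex.normSq (D.Z3 x) * (a' + b') ^ 2 := by positivity
  have h6 : a' ^ 2 + b' ^ 2 = 0 := by
    have : r ^ 2 * (a' ^ 2 + b' ^ 2) ≤ 0 := by linarith
    have h7 : a' ^ 2 + b' ^ 2 ≤ 0 := by
      by_contra hcon
      push Not at hcon
      have := mul_pos hr2 hcon
      linarith
    have h8 : 0 ≤ a' ^ 2 + b' ^ 2 := by positivity
    linarith
  have ha' : a' = 0 := by nlinarith [sq_nonneg a', sq_nonneg b']
  have hb' : b' = 0 := by nlinarith [sq_nonneg a', sq_nonneg b']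
  subst ha' hb'
  have f1 : D.Z1 A = -(a ^ 2 : ℝ) * D.Z1 x := by rw [e1]; push_cast; ring
  have f2 : D.Z2 A = -(b ^ 2 : ℝ) * D.Z2 x := by rw [e2]; push_cast; ring
  have f3 : D.Z3 A = -(((k:ℝ) * (a + b)) ^ 2 : ℝ) * D.Z3 x := by rw [e3]; push_cast; ring
  refine ⟨a, b, hT, f1, f2, f3, ?_, ?_⟩
  · have hPx := norm_Px hp hx
    set c : ℝ := inner ℝ (D.P x) (D.P A) / ρ ^ 2 with hc
    set w : V := D.P A - c • D.P x with hw
    have hPw : D.P w = w := by rw [hw, map_sub, map_smul, D.PP, D.PP]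
    have hxw : inner ℝ (D.P x) w = 0 := by
      rw [hw, inner_sub_right, inner_smul_right, real_inner_self_eq_norm_sq, hPx, hc,
        div_mul_cancel₀ _ hρ2, sub_self]
    have hwt : IsTangentAt (exM D k r μ) x w := by
      rw [isTangent_iff hp hx]
      refine ⟨0, 0, ?_, ?_, ?_, ?_⟩
      · rw [← hPw, D.Z1P]; simp
      · rw [← hPw, D.Z2P]; simp
      · rw [← hPw, D.Z3P]; simp
      · rw [hPw, hxw]
    have h7 := hn w hwt
    have hAw : inner ℝ A w = inner ℝ (D.P A) w := by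
      have g1 : D.Z1 w = 0 := by rw [← hPw, D.Z1P]
      have g2 : D.Z2 w = 0 := by rw [← hPw, D.Z2P]
      have g3 : D.Z3 w = 0 := by rw [← hPw, D.Z3P]
      rw [D.inner_eq, g1, g2, g3, hPw]; simp
    have h8 : inner ℝ w w = 0 := by
      have : inner ℝ w w = inner ℝ (D.P A) w - c * inner ℝ (D.P x) w := by
        conv_lhs => rw [hw]
        rw [inner_sub_left, inner_smul_left]; rfl
      rw [this, ← hAw, h7, hxw]; ring
    have h9 : w = 0 := inner_self_eq_zero.mp h8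
    have h10 : D.P A = c • D.P x := by
      rw [← sub_eq_zero]; exact h9
    rw [h10]
    congr 1
    have h11 : inner ℝ (D.P x) (D.P A) = -‖D.P v‖ ^ 2 := by
      obtain ⟨t1, t2, t3, t4⟩ := hT
      have n1 : ∀ (a : ℝ) (z : ℂ), Complex.normSq (Complex.I * a * z) = a ^ 2 * Complex.normSq z := by
        intro a z
        rw [map_mul, map_mul, Complex.normSq_I, Complex.normSq_ofReal]; ring
      have n3 : Complex.normSq (-(Complex.I * (k * ((a:ℂ) + b))) * D.Z3 x) =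
          (k * (a + b)) ^ 2 * Complex.normSq (D.Z3 x) := by
        have : -(Complex.I * (k * ((a:ℂ) + b))) * D.Z3 x = Complex.I * ((-(k * (a + b)) : ℝ) : ℂ) * D.Z3 x := by
          push_cast; ring
        rw [this, n1]; ring
      rw [D.inner_eq, f1, f2, f3, re_conj_self_mul, re_conj_self_mul, re_conj_self_mul, D.norm_sq, t1, t2, t3,
        n1, n1, n3] at e4
      simp only [Complex.neg_re, Complex.ofReal_re] at e4
      linarith
    rw [hc, h11]; ring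
  · rw [e5]
    have : (Complex.I * ((0:ℝ) + (0:ℝ) : ℂ) - ((a:ℂ) + b) ^ 2) * (D.Z1 x * D.Z2 x) =
      ((-(a + b) ^ 2 : ℝ) : ℂ) * (D.Z1 x * D.Z2 x) := by push_cast; ring
    rw [this, Complex.re_ofReal_mul]

end

section

variable {V : Type*} [NormedAddCommGroup V] [InnerProductSpace ℝ V]
variable {D : Dec V} {k m : ℕ} {r μ ρ : ℝ} {x : V}

lemma frame_sums [FiniteDimensional ℝ V] (hp : Params k m r μ ρ) (hx : x ∈ exM D k r μ)
    (hV : finrank ℝ V = m + 7) {v : Fin (m + 2) → V} (hv : Orthonormal ℝ v) {a b : Fin (m + 2) → ℝ}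
    (hT : ∀ i, Tan D k x (v i) (a i) (b i)) :
    ∑ i, (a i) ^ 2 = m + 2 ∧ ∑ i, (b i) ^ 2 = m + 2 ∧ ∑ i, ((k:ℝ) * (a i + b i)) ^ 2 = m + 2 ∧
      ∑ i, ‖D.P (v i)‖ ^ 2 = m := by
  have hfr := finrank_TS hp hx hV
  have hvT : ∀ i, v i ∈ TS D k r μ x := fun i => (mem_TS hp hx _).mpr ⟨_, _, hT i⟩
  have hPar : ∀ L ∈ TS D k r μ x, ∑ i, (inner ℝ (v i) L) ^ 2 = ‖L‖ ^ 2 := fun L hL =>
    parseval (TS D k r μ x) hfr v hv hvT hL
  have hk := kpos hp
  have hk0 : (k:ℝ) ≠ 0 := by linarith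
  have hm2 : (0:ℝ) < m + 2 := by positivity
  have hk2 : (0:ℝ) < 4 * (k:ℝ) ^ 2 - 1 := by nlinarith
  have h3 := normSq_Z3 hp hx
  set N := Complex.normSq (D.Z3 x) with hN
  have hA : r ^ 2 * (m + 2) * (4 * (k:ℝ) ^ 2 - 1) = 2 * (k:ℝ) ^ 2 := by
    rw [hp.hr2]
    have hne : ((m:ℝ) + 2) * (4 * (k : ℝ) ^ 2 - 1) ≠ 0 := (mul_pos hm2 hk2).ne'
    rw [mul_assoc, div_mul_cancel₀ _ hne]
  have hB : N * (m + 2) * (4 * (k:ℝ) ^ 2 - 1) = 2 * (2 * (k:ℝ) ^ 2 - 1) := by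
    rw [h3]
    have hne : ((m:ℝ) + 2) * (4 * (k : ℝ) ^ 2 - 1) ≠ 0 := (mul_pos hm2 hk2).ne'
    rw [mul_assoc, div_mul_cancel₀ _ hne]
  set s : ℝ := (2 * (k:ℝ) ^ 2 - 1) / (2 * (k:ℝ) ^ 2) with hs
  have hs2 : s * (2 * (k:ℝ) ^ 2) = 2 * (k:ℝ) ^ 2 - 1 := by
    rw [hs, div_mul_cancel₀ _ (by positivity)]
  -- functional identities
  have fa : ∀ a b : ℝ, r ^ 2 * (a * (m + 2) + b * (-((m + 2) * s))) +
      (k:ℝ) ^ 2 * N * ((a + b) * ((m + 2) + -((m + 2) * s))) = a := by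
    intro a b
    have h1 : (4 * (k:ℝ) ^ 2 - 1) * (r ^ 2 * (a * (m + 2) + b * (-((m + 2) * s))) +
      (k:ℝ) ^ 2 * N * ((a + b) * ((m + 2) + -((m + 2) * s)))) = (4 * (k:ℝ) ^ 2 - 1) * a := by
      have : (4 * (k:ℝ) ^ 2 - 1) * (r ^ 2 * (a * (m + 2) + b * (-((m + 2) * s))) +
        (k:ℝ) ^ 2 * N * ((a + b) * ((m + 2) + -((m + 2) * s)))) =
        (r ^ 2 * (m + 2) * (4 * (k:ℝ) ^ 2 - 1)) * (a - b * s) +
        (N * (m + 2) * (4 * (k:ℝ) ^ 2 - 1)) * ((a + b) * ((k:ℝ) ^ 2 - s * (k:ℝ) ^ 2)) := by ring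
      rw [this, hA, hB]
      have h4 : s * (k:ℝ) ^ 2 = (2 * (k:ℝ) ^ 2 - 1) / 2 := by linarith
      rw [h4]
      have h5 : 2 * (k:ℝ) ^ 2 * (a - b * s) = 2 * (k:ℝ) ^ 2 * a - b * (s * (2 * (k:ℝ) ^ 2)) := by ring
      rw [h5, hs2]; ring
    exact mul_left_cancel₀ hk2.ne' h1
  have fb : ∀ a b : ℝ, r ^ 2 * (a * (-((m + 2) * s)) + b * (m + 2)) +
      (k:ℝ) ^ 2 * N * ((a + b) * (-((m + 2) * s) + (m + 2))) = b := by
    intro a b
    have h := fa b a
    linarith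
  have fab : ∀ a b : ℝ, r ^ 2 * (a * ((m + 2) / (2 * k)) + b * ((m + 2) / (2 * k))) +
      (k:ℝ) ^ 2 * N * ((a + b) * ((m + 2) / (2 * k) + (m + 2) / (2 * k))) = k * (a + b) := by
    intro a b
    have h1 : (4 * (k:ℝ) ^ 2 - 1) * (r ^ 2 * (a * ((m + 2) / (2 * k)) + b * ((m + 2) / (2 * k))) +
      (k:ℝ) ^ 2 * N * ((a + b) * ((m + 2) / (2 * k) + (m + 2) / (2 * k)))) =
      (4 * (k:ℝ) ^ 2 - 1) * (k * (a + b)) := by
      have : (4 * (k:ℝ) ^ 2 - 1) * (r ^ 2 * (a * ((m + 2) / (2 * k)) + b * ((m + 2) / (2 * k))) +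
        (k:ℝ) ^ 2 * N * ((a + b) * ((m + 2) / (2 * k) + (m + 2) / (2 * k)))) =
        ((r ^ 2 * (m + 2) * (4 * (k:ℝ) ^ 2 - 1)) +
        (N * (m + 2) * (4 * (k:ℝ) ^ 2 - 1)) * (2 * (k:ℝ) ^ 2)) * ((a + b) / (2 * k)) := by ring
      rw [this, hA, hB]
      field_simp
      ring
    exact mul_left_cancel₀ hk2.ne' h1
  have S : ∀ α β : ℝ, tau D k x α β ∈ TS D k r μ x := fun α β => (mem_TS hp hx _).mpr ⟨_, _, tau_tan α β⟩
  have key : ∀ α β : ℝ, ∑ i, (r ^ 2 * (a i * α + b i * β) + (k:ℝ) ^ 2 * N * ((a i + b i) * (α + β))) ^ 2 =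
      r ^ 2 * (α * α + β * β) + (k:ℝ) ^ 2 * N * ((α + β) * (α + β)) := by
    intro α β
    have h := hPar _ (S α β)
    rw [← real_inner_self_eq_norm_sq, inner_tau hx (tau_tan α β)] at h
    rw [← h]
    refine Finset.sum_congr rfl fun i _ => ?_
    rw [inner_tau hx (hT i)]
  have Sa : ∑ i, (a i) ^ 2 = m + 2 := by
    have h := key (m + 2) (-((m + 2) * s))
    simp only [fa] at h
    exact h
  have Sb : ∑ i, (b i) ^ 2 = m + 2 := by
    have h := key (-((m + 2) * s)) (m + 2)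
    simp only [fb] at h
    exact h
  have Sab : ∑ i, ((k:ℝ) * (a i + b i)) ^ 2 = m + 2 := by
    have h := key ((m + 2) / (2 * k)) ((m + 2) / (2 * k))
    simp only [fab] at h
    rw [h]
    field_simp
    ring
  refine ⟨Sa, Sb, Sab, ?_⟩
  have hnorm : ∀ i, ‖D.P (v i)‖ ^ 2 = 1 - (a i) ^ 2 * r ^ 2 - (b i) ^ 2 * r ^ 2 - ((k:ℝ) * (a i + b i)) ^ 2 * N := by
    intro i
    have h1 : ‖v i‖ ^ 2 = 1 := by rw [hv.1 i]; norm_num
    have n1 : ∀ (a : ℝ) (z : ℂ), Complex.normSq (Complex.I * a * z) = a ^ 2 * Complex.normSq z := by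
      intro a z
      rw [map_mul, map_mul, Complex.normSq_I, Complex.normSq_ofReal]; ring
    have n3 : Complex.normSq (-(Complex.I * (k * ((a i:ℂ) + b i))) * D.Z3 x) =
        (k * (a i + b i)) ^ 2 * Complex.normSq (D.Z3 x) := by
      have : -(Complex.I * (k * ((a i:ℂ) + b i))) * D.Z3 x = Complex.I * ((-(k * (a i + b i)) : ℝ) : ℂ) * D.Z3 x := by
        push_cast; ring
      rw [this, n1]; ring
    rw [D.norm_sq, (hT i).1, (hT i).2.1, (hT i).2.2.1, n1, n1, n3, hx.1, hx.2.1] at h1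
    linarith
  simp only [hnorm]
  rw [Finset.sum_sub_distrib, Finset.sum_sub_distrib, Finset.sum_sub_distrib, ← Finset.sum_mul,
    ← Finset.sum_mul, ← Finset.sum_mul, Sa, Sb, Sab]
  simp only [Finset.sum_const, Finset.card_univ, Fintype.card_fin, nsmul_eq_mul, mul_one]
  push_cast
  have h6 : (m + 2) * (2 * r ^ 2 + N) = 2 := by
    have h7 : (4 * (k:ℝ) ^ 2 - 1) * ((m + 2) * (2 * r ^ 2 + N)) = (4 * (k:ℝ) ^ 2 - 1) * 2 := by
      have : (4 * (k:ℝ) ^ 2 - 1) * ((m + 2) * (2 * r ^ 2 + N)) =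
        2 * (r ^ 2 * (m + 2) * (4 * (k:ℝ) ^ 2 - 1)) + (N * (m + 2) * (4 * (k:ℝ) ^ 2 - 1)) := by ring
      rw [this, hA, hB]; ring
    exact mul_left_cancel₀ hk2.ne' h7
  linarith


lemma exists_normalFrame [FiniteDimensional ℝ V] (hp : Params k m r μ ρ) (hx : x ∈ exM D k r μ)
    (hV : finrank ℝ V = m + 7) : ∃ γ : Fin (m + 2) → ℝ → V, IsNormalFrame (m + 2) (exM D k r μ) x γ := by
  have hfr := finrank_TS hp hx hV
  let B : OrthonormalBasis (Fin (m + 2)) ℝ (TS D k r μ x) :=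
    (stdOrthonormalBasis ℝ (TS D k r μ x)).reindex (finCongr hfr)
  have hB : Orthonormal ℝ fun i => ((B i : TS D k r μ x) : V) :=
    B.orthonormal.comp_linearIsometry (TS D k r μ x).subtypeₗᵢ
  have h1 : ∀ i, ∃ a b, Tan D k x (B i : V) a b := fun i => (mem_TS hp hx _).mp (B i).2
  choose a b hab using h1
  have h2 : ∀ i, ∃ γ : ℝ → V, IsCurveAt (exM D k r μ) x γ ∧ deriv γ 0 = (B i : V) ∧
      D.Z1 (deriv (deriv γ) 0) = -((a i) ^ 2 : ℝ) * D.Z1 x ∧
      D.Z2 (deriv (deriv γ) 0) = -((b i) ^ 2 : ℝ) * D.Z2 x ∧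
      D.Z3 (deriv (deriv γ) 0) = -((k * (a i + b i)) ^ 2 : ℝ) * D.Z3 x ∧
      D.P (deriv (deriv γ) 0) = -(‖D.P (B i : V)‖ ^ 2 / ρ ^ 2) • D.P x :=
    fun i => exists_curve D hp.hρ hx (norm_Px hp hx) (hab i)
  choose γ hγ1 hγ2 hγ3 hγ4 hγ5 hγ6 using h2
  refine ⟨γ, hγ1, ?_, ?_⟩
  · have : (fun i => deriv (γ i) 0) = fun i => ((B i : TS D k r μ x) : V) := funext hγ2
    rw [this]; exact hB
  · intro i w hw
    obtain ⟨α, β, w1, w2, w3, w4⟩ := (isTangent_iff hp hx w).mp hw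
    have aux0 : ∀ (t α : ℝ), (conj (-(t:ℂ)) * (Complex.I * (α:ℂ))).re = 0 := by
      intro t α; simp
    have aux1 : ∀ (t α : ℝ), (conj (-(t:ℂ)) * (-(Complex.I * (k * ((α:ℂ) + β))))).re = 0 := by
      intro t α
      have : (-(Complex.I * (k * ((α:ℂ) + β)))) = Complex.I * ((-(k * (α + β)) : ℝ) : ℂ) := by push_cast; ring
      rw [this]; exact aux0 _ _
    rw [D.inner_eq, hγ3, hγ4, hγ5, hγ6, w1, w2, w3, re_mul_aux, re_mul_aux, re_mul_aux,
      inner_smul_left, w4, aux0, aux0, aux1]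
    simp

lemma sum_accel [FiniteDimensional ℝ V] (hp : Params k m r μ ρ) (hx : x ∈ exM D k r μ)
    (hV : finrank ℝ V = m + 7) {γ : Fin (m + 2) → ℝ → V}
    (hγ : IsNormalFrame (m + 2) (exM D k r μ) x γ) :
    ∑ i, deriv (deriv (γ i)) 0 = (-((m:ℝ) + 2)) • x ∧
    -∑ i, deriv (deriv (fun t => (D.Z1 (γ i t) * D.Z2 (γ i t)).re)) 0 =
      (((m:ℝ) + 2) / (k:ℝ) ^ 2) * (D.Z1 x * D.Z2 x).re := by
  have h := fun i => normal_accel hp hx (hγ.curve i) (hγ.normal i)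
  choose a b hT h1 h2 h3 h4 h5 using h
  obtain ⟨Sa, Sb, Sab, SP⟩ := frame_sums hp hx hV hγ.orthonormal hT
  have hk := kpos hp
  have hk0 : (k:ℝ) ≠ 0 := by linarith
  have hm0 : (0:ℝ) < m := by exact_mod_cast hp.hm
  constructor
  · set S := ∑ i, deriv (deriv (γ i)) 0 with hS
    have e1 : D.Z1 S = (-((m:ℝ) + 2)) • D.Z1 x := by
      rw [hS, map_sum]
      simp only [h1]
      rw [← Finset.sum_mul]
      have : (∑ i, -(((a i) ^ 2 : ℝ) : ℂ)) = ((-((m:ℝ) + 2) : ℝ) : ℂ) := by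
        rw [← Sa]; push_cast; rw [Finset.sum_neg_distrib]
      rw [this]; simp
    have e2 : D.Z2 S = (-((m:ℝ) + 2)) • D.Z2 x := by
      rw [hS, map_sum]
      simp only [h2]
      rw [← Finset.sum_mul]
      have : (∑ i, -(((b i) ^ 2 : ℝ) : ℂ)) = ((-((m:ℝ) + 2) : ℝ) : ℂ) := by
        rw [← Sb]; push_cast; rw [Finset.sum_neg_distrib]
      rw [this]; simp
    have e3 : D.Z3 S = (-((m:ℝ) + 2)) • D.Z3 x := by
      rw [hS, map_sum]
      simp only [h3]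
      rw [← Finset.sum_mul]
      have : (∑ i, -((((k:ℝ) * (a i + b i)) ^ 2 : ℝ) : ℂ)) = ((-((m:ℝ) + 2) : ℝ) : ℂ) := by
        rw [← Sab]; push_cast; rw [Finset.sum_neg_distrib]
      rw [this]; simp
    have e4 : D.P S = (-((m:ℝ) + 2)) • D.P x := by
      rw [hS, map_sum]
      simp only [h4]
      rw [← Finset.sum_smul]
      congr 1
      rw [Finset.sum_neg_distrib, ← Finset.sum_div, SP, hp.hρ2]
      field_simp
    rw [← D.decomp S, e1, e2, e3, e4]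
    conv_rhs => rw [← D.decomp x]
    simp only [map_smul, smul_add]
  · simp only [h5]
    rw [← Finset.sum_neg_distrib]
    have h6 : ∀ i, -(-(a i + b i) ^ 2 * (D.Z1 x * D.Z2 x).re) =
      ((k:ℝ) * (a i + b i)) ^ 2 * ((D.Z1 x * D.Z2 x).re / (k:ℝ) ^ 2) := by
      intro i; field_simp
    simp only [h6]
    rw [← Finset.sum_mul, Sab]
    ring

end

end Pool.Agent.Helper89.TangYan
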