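import Pool.Agent.Helper89.TangYan.Example

set_option autoImplicit false

open scoped ContDiff ComplexConjugate Topology
open Module Filter

namespace Pool.Agent.Helper89.TangYan

variable {V : Type*} [NormedAddCommGroup V] [InnerProductSpace ℝ V]
variable {D : Dec V} {k m : ℕ} {r μ ρ : ℝ} {x : V}

lemma exM_subset_sphere : exM D k r μ ⊆ Metric.sphere 0 1 := by
  intro x hx
  have h : ‖x‖ ^ 2 = 1 := hx.2.2.2
  rw [mem_sphere_zero_iff_norm]
  have h2 : ‖x‖ ^ 2 = 1 ^ 2 := by rw [h]; norm_num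
  exact (pow_left_inj₀ (norm_nonneg _) zero_le_one two_ne_zero).mp h2

lemma exM_compact [FiniteDimensional ℝ V] : IsCompact (exM D k r μ) := by
  have hclosed : IsClosed (exM D k r μ) := by
    have h : exM D k r μ = FF D k r μ ⁻¹' {0} := by
      ext x; rw [mem_exM_iff]; rfl
    rw [h]
    exact isClosed_singleton.preimage (FF_contDiff D k r μ).continuous
  exact IsCompact.of_isClosed_subset (isCompact_sphere (0:V) 1) hclosed exM_subset_sphere

lemma exM_embedded [FiniteDimensional ℝ V] (hp : Params k m r μ ρ) (hV : finrank ℝ V = m + 7) :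
    IsEmbeddedSubmanifold (m + 2) (exM D k r μ) := by
  refine ⟨5, by omega, fun x hx => ⟨Set.univ, FF D k r μ, isOpen_univ, Set.mem_univ _,
    FF_contDiff D k r μ, fun y _ => mem_exM_iff D k r μ y, fun y _ hy =>
    FF_surjective D hp.hr.ne' hp.hρ.ne' hy (norm_Px hp hy)⟩⟩

lemma exM_connected [FiniteDimensional ℝ V] (hp : Params k m r μ ρ) (hV : finrank ℝ V = m + 7) :
    IsConnected (exM D k r μ) := by
  -- the complement `W` of the three complex lines
  let Q : V →ₗ[ℝ] (ℂ × ℂ × ℂ) := D.Z1.toLinearMap.prod (D.Z2.toLinearMap.prod D.Z3.toLinearMap)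
  let W : Submodule ℝ V := LinearMap.ker Q
  have hQ : Function.Surjective Q := by
    rintro ⟨a, b, c⟩
    refine ⟨D.J1 a + D.J2 b + D.J3 c, ?_⟩
    simp [Q]
  have hW : ∀ w : V, w ∈ W ↔ D.Z1 w = 0 ∧ D.Z2 w = 0 ∧ D.Z3 w = 0 := by
    intro w
    simp [W, Q, LinearMap.mem_ker]
  have hPW : ∀ w ∈ W, D.P w = w := by
    intro w hw
    obtain ⟨h1, h2, h3⟩ := (hW w).mp hw
    have := D.decomp w
    rw [h1, h2, h3] at this
    simpa using this
  have hdim : finrank ℝ W = m + 1 := by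
    have h1 := LinearMap.finrank_range_add_finrank_ker Q
    rw [LinearMap.range_eq_top.mpr hQ, finrank_top, hV] at h1
    have h2 : finrank ℝ (ℂ × ℂ × ℂ) = 6 := by
      simp [Module.finrank_prod]
    rw [h2] at h1
    have h3 : finrank ℝ W = finrank ℝ (LinearMap.ker Q) := rfl
    rw [h3]; omega
  have hrank : 1 < Module.rank ℝ W := by
    rw [← Module.finrank_eq_rank, hdim]
    have := hp.hm
    exact_mod_cast (by omega : 1 < m + 1)
  have hsph : IsConnected (Metric.sphere (0 : W) ρ) := isConnected_sphere hrank 0 hp.hρ.le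
  -- parametrisation
  let f : (ℝ × ℝ) × W → V := fun p =>
    D.J1 (r * Complex.exp (p.1.1 * Complex.I)) + D.J2 (r * Complex.exp (p.1.2 * Complex.I)) +
      D.J3 (μ * (conj ((r * Complex.exp (p.1.1 * Complex.I)) * (r * Complex.exp (p.1.2 * Complex.I)))) ^ k)
      + (p.2 : V)
  have hf : Continuous f := by
    have h1 : Continuous fun p : (ℝ × ℝ) × W => (r : ℂ) * Complex.exp (p.1.1 * Complex.I) := by fun_prop
    have h2 : Continuous fun p : (ℝ × ℝ) × W => (r : ℂ) * Complex.exp (p.1.2 * Complex.I) := by fun_prop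
    have h3 : Continuous fun p : (ℝ × ℝ) × W => (μ : ℂ) * (conj ((r * Complex.exp (p.1.1 * Complex.I)) *
        (r * Complex.exp (p.1.2 * Complex.I)))) ^ k :=
      continuous_const.mul ((Complex.continuous_conj.comp (h1.mul h2)).pow k)
    exact (((D.J1.continuous.comp h1).add (D.J2.continuous.comp h2)).add (D.J3.continuous.comp h3)).add
      (continuous_subtype_val.comp continuous_snd)
  have himg : exM D k r μ = f '' (Set.univ ×ˢ Metric.sphere (0 : W) ρ) := by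
    ext x
    constructor
    · intro hx
      have hPx := norm_Px hp hx
      have hxW : D.P x ∈ W := (hW _).mpr ⟨D.Z1P x, D.Z2P x, D.Z3P x⟩
      have hpol : ∀ z : ℂ, Complex.normSq z = r ^ 2 → (r : ℂ) * Complex.exp ((Complex.arg z : ℂ) * Complex.I) = z := by
        intro z hz
        have h1 : ‖z‖ = r := by
          rw [Complex.normSq_eq_norm_sq] at hz
          exact (pow_left_inj₀ (norm_nonneg _) hp.hr.le two_ne_zero).mp hz
        rw [← h1]
        exact Complex.norm_mul_exp_arg_mul_I z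
      refine ⟨((Complex.arg (D.Z1 x), Complex.arg (D.Z2 x)), ⟨D.P x, hxW⟩), ⟨Set.mem_univ _, ?_⟩, ?_⟩
      · rw [mem_sphere_zero_iff_norm]
        exact hPx
      · simp only [f]
        rw [hpol _ hx.1, hpol _ hx.2.1, ← hx.2.2.1]
        exact D.decomp x
    · rintro ⟨⟨⟨α, β⟩, w⟩, ⟨-, hw⟩, rfl⟩
      rw [mem_sphere_zero_iff_norm] at hw
      obtain ⟨w1, w2, w3⟩ := (hW (w : V)).mp w.2
      have w4 := hPW (w : V) w.2
      have hn : ∀ t : ℝ, Complex.normSq ((r : ℂ) * Complex.exp (t * Complex.I)) = r ^ 2 := by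
        intro t
        rw [map_mul, Complex.normSq_ofReal, Complex.normSq_eq_norm_sq, Complex.norm_exp_ofReal_mul_I]
        ring
      have e1 : D.Z1 (f ((α, β), w)) = r * Complex.exp (α * Complex.I) := by
        simp only [f, map_add, D.Z1J1, D.Z1J2, D.Z1J3, w1]; ring
      have e2 : D.Z2 (f ((α, β), w)) = r * Complex.exp (β * Complex.I) := by
        simp only [f, map_add, D.Z2J1, D.Z2J2, D.Z2J3, w2]; ring
      have e3 : D.Z3 (f ((α, β), w)) = μ * (conj ((r * Complex.exp (α * Complex.I)) *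
          (r * Complex.exp (β * Complex.I)))) ^ k := by
        simp only [f, map_add, D.Z3J1, D.Z3J2, D.Z3J3, w3]; ring
      have e4 : D.P (f ((α, β), w)) = w := by
        simp only [f, map_add, D.PJ1, D.PJ2, D.PJ3, w4]; simp
      refine ⟨by rw [e1, hn], by rw [e2, hn], by rw [e1, e2, e3], ?_⟩
      have hk := kpos hp
      have hm2 : (0:ℝ) < m + 2 := by positivity
      have hk2 : (0:ℝ) < 4 * (k:ℝ) ^ 2 - 1 := by nlinarith
      have hw' : ‖(w : V)‖ = ρ := hw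
      rw [D.norm_sq, e1, e2, e3, e4, hn, hn, map_mul, map_pow, Complex.normSq_conj, map_mul, hn, hn,
        Complex.normSq_ofReal, hw', hp.hρ2]
      have h5 : μ * μ * (r ^ 2 * r ^ 2) ^ k = 2 * (2 * (k : ℝ) ^ 2 - 1) / ((m + 2) * (4 * (k : ℝ) ^ 2 - 1)) := by
        rw [← hp.hμ2]; ring
      rw [h5, hp.hr2]
      have hne : ((m:ℝ) + 2) * (4 * (k : ℝ) ^ 2 - 1) ≠ 0 := (mul_pos hm2 hk2).ne'
      have h7 : (m : ℝ) / (m + 2) = 1 - 2 / (m + 2) := by field_simp; ring
      have h6 : 2 * (k : ℝ) ^ 2 / ((m + 2) * (4 * (k : ℝ) ^ 2 - 1)) + 2 * (k : ℝ) ^ 2 / ((m + 2) * (4 * (k : ℝ) ^ 2 - 1))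
          + 2 * (2 * (k : ℝ) ^ 2 - 1) / ((m + 2) * (4 * (k : ℝ) ^ 2 - 1)) = 2 / (m + 2) := by
        rw [← add_div, ← add_div, div_eq_div_iff hne hm2.ne']
        ring
      rw [h6, h7]; ring
  rw [himg]
  have hsc : IsConnected ((Set.univ : Set (ℝ × ℝ)) ×ˢ Metric.sphere (0 : W) ρ) :=
    isConnected_univ.prod hsph
  exact hsc.image f hf.continuousOn

lemma exM_minimal [FiniteDimensional ℝ V] (hp : Params k m r μ ρ) (hV : finrank ℝ V = m + 7) :
    IsMinimalInUnitSphere (m + 2) (exM D k r μ) :=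
  ⟨exM_subset_sphere, fun _ hx => ⟨-((m:ℝ) + 2), exists_normalFrame hp hx hV, fun _ hγ =>
    (sum_accel hp hx hV hγ).1⟩⟩

lemma exM_eigenvalue [FiniteDimensional ℝ V] (hp : Params k m r μ ρ) (hV : finrank ℝ V = m + 7) :
    IsLaplaceEigenvalue (m + 2) (exM D k r μ) (((m:ℝ) + 2) / (k:ℝ) ^ 2) := by
  refine ⟨fun x => (D.Z1 x * D.Z2 x).re, ?_, ?_, ?_⟩
  · exact Complex.reCLM.contDiff.comp (D.Z1.contDiff.mul D.Z2.contDiff)
  · -- a point of `M` where the function does not vanish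
    obtain ⟨x, hx⟩ := (exM_connected (D := D) hp hV).nonempty
    -- rotate the first coordinate so that the product becomes positive
    set u : ℂ := conj (D.Z1 x * D.Z2 x) / (r ^ 2 : ℝ) with hu
    have hr2 : (0:ℝ) < r ^ 2 := pow_pos hp.hr 2
    have hrc : ((r ^ 2 : ℝ) : ℂ) ≠ 0 := by exact_mod_cast hr2.ne'
    have hnu : Complex.normSq u = 1 := by
      rw [hu, map_div₀, Complex.normSq_conj, map_mul, hx.1, hx.2.1, Complex.normSq_ofReal]
      exact div_self (mul_pos hr2 hr2).ne'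
    set y : V := D.J1 (u * D.Z1 x) + D.J2 (D.Z2 x) + D.J3 ((conj u) ^ k * D.Z3 x) + D.P x with hy
    have e1 : D.Z1 y = u * D.Z1 x := by
      simp only [hy, map_add, D.Z1J1, D.Z1J2, D.Z1J3, D.Z1P]; ring
    have e2 : D.Z2 y = D.Z2 x := by
      simp only [hy, map_add, D.Z2J1, D.Z2J2, D.Z2J3, D.Z2P]; ring
    have e3 : D.Z3 y = (conj u) ^ k * D.Z3 x := by
      simp only [hy, map_add, D.Z3J1, D.Z3J2, D.Z3J3, D.Z3P]; ring
    have e4 : D.P y = D.P x := by
      simp only [hy, map_add, D.PJ1, D.PJ2, D.PJ3, D.PP]; simp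
    have hyM : y ∈ exM D k r μ := by
      refine ⟨by rw [e1, map_mul, hnu, one_mul, hx.1], by rw [e2, hx.2.1], ?_, ?_⟩
      · rw [e1, e2, e3, hx.2.2.1]
        simp only [map_mul, mul_pow]; ring
      · have := hx.2.2.2
        rw [D.norm_sq] at this ⊢
        rw [e1, e2, e3, e4, map_mul, map_mul, map_pow, Complex.normSq_conj, hnu, one_pow, one_mul, one_mul]
        exact this
    refine ⟨y, hyM, ?_⟩
    have : D.Z1 y * D.Z2 y = ((r ^ 2 : ℝ) : ℂ) := by
      rw [e1, e2, hu]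
      have h1 : conj (D.Z1 x * D.Z2 x) * (D.Z1 x * D.Z2 x) = ((r ^ 2 * r ^ 2 : ℝ) : ℂ) := by
        rw [mul_comm, Complex.mul_conj, map_mul, hx.1, hx.2.1]
      have h2 : conj (D.Z1 x * D.Z2 x) / ((r ^ 2 : ℝ) : ℂ) * D.Z1 x * D.Z2 x =
          (conj (D.Z1 x * D.Z2 x) * (D.Z1 x * D.Z2 x)) / ((r ^ 2 : ℝ) : ℂ) := by ring
      rw [h2, h1, Complex.ofReal_mul, mul_div_assoc, div_self hrc, mul_one]
    show (D.Z1 y * D.Z2 y).re ≠ 0
    rw [this, Complex.ofReal_re]
    exact hr2.ne'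
  · intro x hx
    exact ⟨exists_normalFrame hp hx hV, fun γ hγ => (sum_accel hp hx hV hγ).2⟩

lemma exists_params (k m : ℕ) (hk : 1 ≤ k) (hm : 1 ≤ m) : ∃ r μ ρ : ℝ, Params k m r μ ρ := by
  have hk' : (1 : ℝ) ≤ k := by exact_mod_cast hk
  have hm' : (1 : ℝ) ≤ m := by exact_mod_cast hm
  have hm2 : (0:ℝ) < m + 2 := by positivity
  have hk2 : (0:ℝ) < 4 * (k:ℝ) ^ 2 - 1 := by nlinarith
  have hA : 0 < 2 * (k : ℝ) ^ 2 / ((m + 2) * (4 * (k : ℝ) ^ 2 - 1)) := by positivity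
  have hk3 : (0:ℝ) ≤ 2 * (k:ℝ) ^ 2 - 1 := by nlinarith
  have hB : 0 ≤ 2 * (2 * (k : ℝ) ^ 2 - 1) / ((m + 2) * (4 * (k : ℝ) ^ 2 - 1)) := by positivity
  set A := 2 * (k : ℝ) ^ 2 / ((m + 2) * (4 * (k : ℝ) ^ 2 - 1)) with hAd
  set B := 2 * (2 * (k : ℝ) ^ 2 - 1) / ((m + 2) * (4 * (k : ℝ) ^ 2 - 1)) with hBd
  refine ⟨Real.sqrt A, Real.sqrt B / A ^ k, Real.sqrt (m / (m + 2)), hk, hm, Real.sqrt_pos.mpr hA,
    Real.sqrt_pos.mpr (by positivity), Real.sq_sqrt hA.le, ?_, Real.sq_sqrt (by positivity)⟩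
  rw [div_pow, Real.sq_sqrt hB, Real.sq_sqrt hA.le, mul_pow]
  have hAk : A ^ k ≠ 0 := (pow_pos hA k).ne'
  have hfin : B / (A ^ k) ^ 2 * (A ^ k * A ^ k) = B := by
    rw [div_mul_eq_mul_div, ← pow_two, mul_div_assoc, div_self (pow_ne_zero 2 hAk), mul_one]
  exact hfin

end Pool.Agent.Helper89.TangYan
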