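import Pool.Agent.Helper89.TangYan.Defs

/-!
Sanity check for the definitions of `Pool.Agent.Helper89.TangYan.Defs`: Takahashi's theorem.
On a nonempty `d`-dimensional minimal submanifold of the unit sphere the mean curvature vector
in the ambient Euclidean space is `- d x`, and the linear functions are eigenfunctions of the
Laplacian with eigenvalue `d`.
-/

set_option autoImplicit false

open scoped ContDiff Topology
open Module Filter

namespace Pool.Agent.Helper89.TangYan

variable {V : Type*} [NormedAddCommGroup V] [InnerProductSpace ℝ V]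

lemma inner_accel {M : Set V} (hM : M ⊆ Metric.sphere 0 1) {x : V} {γ : ℝ → V}
    (h : IsCurveAt M x γ) : inner ℝ x (deriv (deriv γ) 0) = - ‖deriv γ 0‖ ^ 2 := by
  obtain ⟨hs, h0, hM'⟩ := h
  have hd : ∀ t, HasDerivAt γ (deriv γ t) t := fun t =>
    (hs.differentiable (by simp)).differentiableAt.hasDerivAt
  have hs' : ContDiff ℝ ∞ (deriv γ) := (contDiff_infty_iff_deriv.mp hs).2
  have hd2 : ∀ t, HasDerivAt (deriv γ) (deriv (deriv γ) t) t := fun t =>
    (hs'.differentiable (by simp)).differentiableAt.hasDerivAt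
  have hn : ∀ t, HasDerivAt (fun s => ‖γ s‖ ^ 2) (2 * inner ℝ (γ t) (deriv γ t)) t :=
    fun t => (hd t).norm_sq
  have hn2 : HasDerivAt (fun t => 2 * inner ℝ (γ t) (deriv γ t))
      (2 * (inner ℝ (γ 0) (deriv (deriv γ) 0) + inner ℝ (deriv γ 0) (deriv γ 0))) 0 :=
    ((hd 0).inner ℝ (hd2 0)).const_mul 2
  have en : ∀ᶠ t in 𝓝 (0 : ℝ), 2 * inner ℝ (γ t) (deriv γ t) = 0 := by
    filter_upwards [hM'.eventually_nhds] with t h4
    have hd4 : HasDerivAt (fun s => ‖γ s‖ ^ 2) 0 t :=
      (hasDerivAt_const t (1:ℝ)).congr_of_eventuallyEq (h4.mono fun s hs => by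
        have := hM hs
        rw [mem_sphere_zero_iff_norm] at this
        simp [this])
    exact (hn t).unique hd4
  have en2 : (2 * (inner ℝ (γ 0) (deriv (deriv γ) 0) + inner ℝ (deriv γ 0) (deriv γ 0))) = 0 :=
    hn2.unique ((hasDerivAt_const (0:ℝ) (0:ℝ)).congr_of_eventuallyEq en)
  rw [h0, real_inner_self_eq_norm_sq] at en2
  linarith

/-- the mean curvature vector of a minimal submanifold of the unit sphere is `-d x` -/
theorem meanCurvature_eq {d : ℕ} {M : Set V} (h : IsMinimalInUnitSphere d M) {x : V} (hx : x ∈ M) :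
    HasMeanCurvatureVector d M x (-(d:ℝ) • x) := by
  obtain ⟨c, ⟨γ, hγ⟩, hall⟩ := h.2 x hx
  have h1 : inner ℝ x (∑ i, deriv (deriv (γ i)) 0) = -(d:ℝ) := by
    rw [inner_sum]
    have : ∀ i, inner ℝ x (deriv (deriv (γ i)) 0) = -1 := fun i => by
      rw [inner_accel h.1 (hγ.curve i), hγ.orthonormal.1 i]; norm_num
    simp [this]
  have hxn : ‖x‖ = 1 := by simpa using h.1 hx
  rw [hall γ hγ, inner_smul_right, real_inner_self_eq_norm_sq, hxn] at h1
  have hc : c = -(d:ℝ) := by simpa using h1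
  rw [← hc]
  exact ⟨⟨γ, hγ⟩, hall⟩

/-- Takahashi's theorem: linear functions are eigenfunctions with eigenvalue `d` -/
theorem takahashi {d : ℕ} {M : Set V} (h : IsMinimalInUnitSphere d M) (hne : M.Nonempty) :
    IsLaplaceEigenvalue d M d := by
  obtain ⟨x₀, hx₀⟩ := hne
  have hxn : ‖x₀‖ = 1 := by simpa using h.1 hx₀
  refine ⟨fun y => inner ℝ x₀ y, (innerSL ℝ x₀).contDiff, ⟨x₀, hx₀, ?_⟩, ?_⟩
  · simp [real_inner_self_eq_norm_sq, hxn]
  · intro x hx
    obtain ⟨⟨γ₀, hγ₀⟩, hall⟩ := meanCurvature_eq h hx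
    refine ⟨⟨γ₀, hγ₀⟩, fun γ hγ => ?_⟩
    have hH := hall γ hγ
    have h1 : ∀ i, deriv (deriv fun t => inner ℝ x₀ (γ i t)) 0 = inner ℝ x₀ (deriv (deriv (γ i)) 0) := by
      intro i
      have hs := (hγ.curve i).1
      have hd : ∀ t, HasDerivAt (γ i) (deriv (γ i) t) t := fun t =>
        (hs.differentiable (by simp)).differentiableAt.hasDerivAt
      have hs' : ContDiff ℝ ∞ (deriv (γ i)) := (contDiff_infty_iff_deriv.mp hs).2
      have hd2 : ∀ t, HasDerivAt (deriv (γ i)) (deriv (deriv (γ i)) t) t := fun t =>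
        (hs'.differentiable (by simp)).differentiableAt.hasDerivAt
      have e1 : (deriv fun t => inner ℝ x₀ (γ i t)) = fun t => inner ℝ x₀ (deriv (γ i) t) := by
        funext t
        exact ((innerSL ℝ x₀).hasFDerivAt.comp_hasDerivAt t (hd t)).deriv
      rw [e1]
      exact ((innerSL ℝ x₀).hasFDerivAt.comp_hasDerivAt (0:ℝ) (hd2 0)).deriv
    simp only [h1]
    rw [← inner_sum, hH, inner_smul_right]
    ring

end Pool.Agent.Helper89.TangYan
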